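import Pool.Agent.Helper41.LD6.Defs

/-!
# Project LD7: joint distribution of the powers `x ^ (r n + ρ)`, definitions
-/

set_option autoImplicit false

namespace Pool.Agent.Helper41.LD7

open Set MeasureTheory
open Pool.Agent.Helper41.LD (av var haar)
open Pool.Agent.Helper41.LD4 (A M W Pot NB NBg)
open Pool.Agent.Helper41.LD5 (fp pwf)
open Pool.Agent.Helper41.LD6 (hr vr lv Qs vq lev Lv NR6)

variable {d : ℕ}

/-- the number of the coordinates used -/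
def sp (q : Fin (d + 1) → ℕ) : ℕ := (Finset.univ.filter fun i => q i ≠ 0).card

/-- the weight of a level (`sp (lev q) = sp q`) -/
noncomputable def om (Q K : ℕ) (l : Fin (d + 1) → ℕ) : ℝ := 1 / (Q : ℝ) * (1 / (2 * ((d : ℝ) + 1) * ((K : ℝ) + 1))) ^ sp l

/-- the functional `(u, q)` along the sequence `U`, only at the times `≡ u` modulo `Q` (`n₀` is the time of `U 0`) -/
noncomputable def GQ (U : ℕ → ℝ → ℝ) (n₀ Q H : ℕ) (p : ℕ × (Fin (d + 1) → ℕ)) (j : ℕ) (x : ℝ) : ℝ :=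
  if j < H ∧ (n₀ + j) % Q = p.1 then ∏ i : Fin (d + 1), hr (p.2 i) (U (j + i) x) else 0

/-- the time of the length `ℓ` at the point `a`, with the threshold `Θ` -/
noncomputable def Tt (A₀ : ℝ) (P : ℕ) (Θ a ℓ : ℝ) : ℕ := sInf {n : ℕ | Θ ≤ fp A₀ P n a * ℓ}

/-- discrepancy of an `s`-dimensional sequence, not divided by `N` -/
def BoxLe (s : ℕ) (y : ℕ → Fin s → ℝ) (N : ℕ) (E : ℝ) : Prop :=
  ∀ α γ : Fin s → ℝ, (∀ i, 0 ≤ α i ∧ α i ≤ γ i ∧ γ i ≤ 1) →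
    |(((Finset.range N).filter fun n : ℕ => ∀ i : Fin s, α i ≤ Int.fract (y n i) ∧ Int.fract (y n i) < γ i).card : ℝ) -
      N * ∏ i, (γ i - α i)| ≤ E

/-! ## The data of a stage -/

/-- windows of `d + 1` consecutive terms of `A₀ x ^ (n / P) + c (n / P)` on `[x₁, x₂]`, classes modulo `Q`; `X` is a large integer -/
structure Pm where
  (d X P Q : ℕ) (A₀ x₁ x₂ : ℝ) (c : ℝ → ℝ)

namespace Pm

structure Ok (F : Pm) : Prop where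
  hA : 0 < F.A₀
  h1 : 1 < F.x₁
  h12 : F.x₁ ≤ F.x₂
  hP : 1 ≤ F.P
  hQ : 1 ≤ F.Q
  hPX : F.P ≤ F.X
  hQX : F.Q ≤ F.X
  hA1 : F.A₀ ≤ 2 ^ F.X
  hA2 : 1 ≤ F.A₀ * 2 ^ F.X
  hx2 : F.x₂ ≤ 2 ^ F.X
  hx1 : 2 ≤ (F.x₁ ^ (1 / (F.P : ℝ))) ^ F.X

/-- the precision -/
def E (F : Pm) (K : ℕ) : ℕ := (F.d + 4) * K
/-- the number of the times in a product of two functionals -/
def t (F : Pm) : ℕ := 2 * (F.d + 1)
/-- radius of the resonances: `2 ^ (-D₁ E)` -/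
def D₁ (F : Pm) : ℕ := 200 * (F.d + 2)
/-- nonresonance: `2 ^ (-D E)` -/
def D (F : Pm) : ℕ := (F.D₁ + 2) * F.t
/-- gap between clusters: `Gp E` -/
def Gp (F : Pm) : ℕ := F.X * (F.D + 40)
/-- `|φ'| ≥ 2 ^ (-D' E) V` -/
def D' (F : Pm) : ℕ := F.D + 4 + F.X * (F.t * F.Gp)
def C₀ (F : Pm) : ℕ := 40 * F.t + F.D' + 10
/-- threshold of the times: `2 ^ (C₁ E)` -/
def C₁ (F : Pm) : ℕ := F.C₀ + 20
/-- test: `2 ^ (C₂ E)` -/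
def C₂ (F : Pm) : ℕ := F.C₁ + F.C₀ + 30
def R (F : Pm) : ℕ := F.X * (F.C₁ + 20) + 1
/-- one constant for all -/
def Z (F : Pm) : ℕ := 1000 * (F.X + 1) * (F.C₂ + F.R + F.t * F.Gp + F.D' + 10)

/-- threshold -/
noncomputable def Th (F : Pm) (K : ℕ) : ℝ := 2 ^ (F.C₁ * F.E K)

/-- `K` is large -/
def Big (F : Pm) (K : ℕ) : Prop := F.Z ^ 4 ≤ K

/-- the time of the start of a stage -/
noncomputable def n₀ (F : Pm) (K : ℕ) (a₀ ℓst : ℝ) : ℕ := Tt F.A₀ F.P (F.Th K) a₀ ℓst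

/-- the sequence of the stage that starts with the window `[a₀, a₀ + ℓst]` -/
noncomputable def U (F : Pm) (K : ℕ) (a₀ ℓst : ℝ) (j : ℕ) (x : ℝ) : ℝ := pwf F.A₀ F.c F.P (F.n₀ K a₀ ℓst + j) x
noncomputable def V (F : Pm) (K : ℕ) (a₀ ℓst : ℝ) (j : ℕ) (x : ℝ) : ℝ := fp F.A₀ F.P (F.n₀ K a₀ ℓst + j) x

/-- the times -/
noncomputable def T (F : Pm) (K : ℕ) (a₀ ℓst ℓ : ℝ) : ℕ := Tt F.A₀ F.P (F.Th K) a₀ ℓ - F.n₀ K a₀ ℓst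

/-- no resonances at `x` -/
def NR (F : Pm) (K : ℕ) (x : ℝ) : Prop :=
  NR6 F.t (F.t * (F.Gp * F.E K)) (2 ^ (3 * K)) (2 ^ (31 * F.E K)) ((1 / 2) ^ (F.D * F.E K)) (x ^ (1 / (F.P : ℝ)))

/-- the start window of a stage -/
structure St (F : Pm) (K : ℕ) (a₀ ℓst : ℝ) : Prop where
  lo : F.x₁ ≤ a₀
  hi : a₀ + ℓst ≤ F.x₂
  pos : 0 < ℓst
  sm : ℓst * 2 ^ (K ^ 4) ≤ 1
  lg : 1 ≤ ℓst * 2 ^ (2 ^ (2 * K))
  nr : ∀ x ∈ Icc a₀ (a₀ + ℓst), F.NR K x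

/-- the index set -/
def Is (F : Pm) (K : ℕ) : Finset (ℕ × (Fin (F.d + 1) → ℕ)) := Finset.range F.Q ×ˢ Qs F.d K

/-- the functional `p = (u, q)` -/
noncomputable def G (F : Pm) (K : ℕ) (a₀ ℓst : ℝ) (p : ℕ × (Fin (F.d + 1) → ℕ)) : ℕ → ℝ → ℝ :=
  GQ (F.U K a₀ ℓst) (F.n₀ K a₀ ℓst) F.Q (2 ^ (2 * K)) p

/-- the parameter of the potentials -/
noncomputable def lam (F : Pm) (K : ℕ) (p : ℕ × (Fin (F.d + 1) → ℕ)) : ℝ := 1 / (16384 * (F.X * (K : ℝ) ^ 3)) * om F.Q K (lev p.2)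

/-- a good window of the stage -/
def Good (F : Pm) (K : ℕ) (a₀ ℓst a ℓ : ℝ) : Prop :=
  NBg (F.U K a₀ ℓst) (F.T K a₀ ℓst ℓ + F.d) (F.R * F.E K) (2 ^ K) a ℓ ∧
  ∑ p ∈ F.Is K, Pot (F.G K a₀ ℓst p) (F.T K a₀ ℓst ℓ) (F.R * F.E K) (F.lam K p) a ℓ ≤ 16 ^ F.E K

end Pm

/-- the constant of a stage -/
def cF (F : Pm) : ℕ := 2 ^ 30 * (8 * (F.d + 1)) ^ (F.d + 1) * F.Z * F.Q ^ 2

end Pool.Agent.Helper41.LD7
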