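import Pool.Agent.Helper41.LD7.Main

/-!
# Project LD7: rational multiples, lemmas
-/

set_option autoImplicit false

namespace Pool.Agent.Helper41.LD7b

open Set
open Pool.Agent.Helper41.LD5 (fp pwf nuP nuR nuP_eq)
open Pool.Agent.Helper44.LD5 (nuP_spec nuP_nonempty)
open Pool.Agent.Helper94.LD7 (fp_step fp_nonneg)

/-! ## Multiples of the points -/

/-- the number `k` of the interval of `p z` -/
theorem fract_mul {z α γ : ℝ} {p : ℕ} (hp : 1 ≤ p) (hα : 0 ≤ α) (hγ : γ ≤ 1) (k : ℕ) (hk : k = ⌊p * Int.fract z⌋₊) :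
    (α ≤ Int.fract (p * z) ∧ Int.fract (p * z) < γ) ↔ ((k + α) / p ≤ Int.fract z ∧ Int.fract z < (k + γ) / p) := by
  have hp0 : (0 : ℝ) < p := by exact_mod_cast hp
  have hz0 := Int.fract_nonneg z
  have hk1 : (k : ℝ) ≤ p * Int.fract z := by rw [hk]; exact Nat.floor_le (by positivity)
  have hk2 : p * Int.fract z < k + 1 := by rw [hk]; exact Nat.lt_floor_add_one _
  have h1 : Int.fract (p * z) = p * Int.fract z - k := by
    rw [Int.fract_eq_iff]
    refine ⟨by linarith, by linarith, p * ⌊z⌋ + k, ?_⟩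
    have h2 := Int.floor_add_fract z
    push_cast
    rw [show (p : ℝ) * z - (p * Int.fract z - k) = p * (z - Int.fract z) + k by ring]
    have h3 : z - Int.fract z = ⌊z⌋ := by linarith
    rw [h3]
  rw [h1, div_le_iff₀ hp0, lt_div_iff₀ hp0]
  constructor
  · rintro ⟨h2, h3⟩
    constructor <;> linarith [mul_comm (Int.fract z) (p : ℝ)]
  · rintro ⟨h2, h3⟩
    constructor <;> linarith [mul_comm (Int.fract z) (p : ℝ)]

/-- the interval determines `k` -/
theorem floor_of {z α γ : ℝ} {p : ℕ} (hp : 1 ≤ p) (hα : 0 ≤ α) (hγ : γ ≤ 1) (k : ℕ) (h1 : (k + α) / p ≤ Int.fract z)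
    (h2 : Int.fract z < (k + γ) / p) : k = ⌊p * Int.fract z⌋₊ := by
  have hp0 : (0 : ℝ) < p := by exact_mod_cast hp
  rw [div_le_iff₀ hp0] at h1
  rw [lt_div_iff₀ hp0] at h2
  symm
  rw [Nat.floor_eq_iff (by have := Int.fract_nonneg z; positivity)]
  constructor <;> linarith [mul_comm (Int.fract z) (p : ℝ)]

/-- from the points `z` to the points `(p i z i)` -/
theorem box_mul {m : ℕ} {z : ℕ → Fin m → ℝ} {I : Finset ℕ} {V E : ℝ}
    (h : ∀ α γ : Fin m → ℝ, (∀ i, 0 ≤ α i ∧ α i ≤ γ i ∧ γ i ≤ 1) →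
      (by classical exact |((I.filter fun n : ℕ => ∀ i, α i ≤ Int.fract (z n i) ∧ Int.fract (z n i) < γ i).card : ℝ) - V * ∏ i, (γ i - α i)| ≤ E))
    {p : Fin m → ℕ} (hp : ∀ i, 1 ≤ p i) {α γ : Fin m → ℝ} (hαγ : ∀ i, 0 ≤ α i ∧ α i ≤ γ i ∧ γ i ≤ 1) :
    (by classical exact |((I.filter fun n : ℕ => ∀ i, α i ≤ Int.fract (p i * z n i) ∧ Int.fract (p i * z n i) < γ i).card : ℝ) -
      V * ∏ i, (γ i - α i)| ≤ (∏ i, (p i : ℝ)) * E) := by
  classical
  have hp0 : ∀ i, (0 : ℝ) < p i := fun i => by exact_mod_cast hp i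
  obtain ⟨T, hT⟩ : ∃ T : Finset (Fin m → ℕ), T = Fintype.piFinset fun i => Finset.range (p i) := ⟨_, rfl⟩
  obtain ⟨f, hf⟩ : ∃ f : ℕ → Fin m → ℕ, f = fun n i => ⌊p i * Int.fract (z n i)⌋₊ := ⟨_, rfl⟩
  have hmap : ∀ n ∈ I.filter (fun n : ℕ => ∀ i, α i ≤ Int.fract (p i * z n i) ∧ Int.fract (p i * z n i) < γ i), f n ∈ T := by
    intro n _
    rw [hT, Fintype.mem_piFinset]
    intro i
    rw [Finset.mem_range, hf]
    show ⌊p i * Int.fract (z n i)⌋₊ < p i
    rw [Nat.floor_lt (by have := Int.fract_nonneg (z n i); positivity)]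
    calc (p i : ℝ) * Int.fract (z n i) < p i * 1 := mul_lt_mul_of_pos_left (Int.fract_lt_one _) (hp0 i)
      _ = p i := mul_one _
  have hcard := Finset.card_eq_sum_card_fiberwise hmap
  -- the fibres
  have hfib : ∀ k ∈ T, ((I.filter (fun n : ℕ => ∀ i, α i ≤ Int.fract (p i * z n i) ∧ Int.fract (p i * z n i) < γ i)).filter fun n => f n = k) =
      I.filter fun n : ℕ => ∀ i, (k i + α i) / p i ≤ Int.fract (z n i) ∧ Int.fract (z n i) < (k i + γ i) / p i := by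
    intro k hk
    ext n
    simp only [Finset.mem_filter]
    constructor
    · rintro ⟨⟨h1, h2⟩, h3⟩
      refine ⟨h1, fun i => ?_⟩
      have h4 : k i = ⌊p i * Int.fract (z n i)⌋₊ := by rw [← h3, hf]
      exact (fract_mul (hp i) (hαγ i).1 (hαγ i).2.2 (k i) h4).1 (h2 i)
    · rintro ⟨h1, h2⟩
      have h3 : ∀ i, k i = ⌊p i * Int.fract (z n i)⌋₊ := fun i => floor_of (hp i) (hαγ i).1 (hαγ i).2.2 (k i) (h2 i).1 (h2 i).2
      refine ⟨⟨h1, fun i => (fract_mul (hp i) (hαγ i).1 (hαγ i).2.2 (k i) (h3 i)).2 (h2 i)⟩, ?_⟩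
      funext i
      rw [hf]
      exact (h3 i).symm
  have hk : ∀ k ∈ T, |((I.filter fun n : ℕ => ∀ i, (k i + α i) / p i ≤ Int.fract (z n i) ∧ Int.fract (z n i) < (k i + γ i) / p i).card : ℝ) -
      V * ∏ i, ((γ i - α i) / p i)| ≤ E := by
    intro k hk
    have h1 := h (fun i => (k i + α i) / p i) (fun i => (k i + γ i) / p i) fun i => by
      have h2 : k i < p i := by
        rw [hT, Fintype.mem_piFinset] at hk
        exact Finset.mem_range.1 (hk i)
      have h3 : (k i : ℝ) + 1 ≤ p i := by exact_mod_cast h2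
      refine ⟨div_nonneg (add_nonneg (Nat.cast_nonneg _) (hαγ i).1) (hp0 i).le, ?_, ?_⟩
      · exact div_le_div_of_nonneg_right (by linarith [(hαγ i).2.1]) (hp0 i).le
      · rw [div_le_one (hp0 i)]
        linarith [(hαγ i).2.2]
    have h4 : ∏ i, ((k i + γ i) / p i - (k i + α i) / p i) = ∏ i, ((γ i - α i) / p i) := by
      refine Finset.prod_congr rfl fun i _ => ?_
      ring
    rw [h4] at h1
    convert h1
  have hcT : (T.card : ℝ) = ∏ i, (p i : ℝ) := by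
    rw [hT, Fintype.card_piFinset]
    push_cast
    refine Finset.prod_congr rfl fun i _ => ?_
    rw [Finset.card_range]
  have hvol : V * ∏ i, (γ i - α i) = ∑ k ∈ T, V * ∏ i, ((γ i - α i) / p i) := by
    rw [Finset.sum_const, nsmul_eq_mul, hcT]
    have h1 : ∏ i, ((γ i - α i) / (p i : ℝ)) = (∏ i, (γ i - α i)) / ∏ i, (p i : ℝ) := Finset.prod_div_distrib _ _
    have h2 : (∏ i, (p i : ℝ)) ≠ 0 := (Finset.prod_pos fun i _ => hp0 i).ne'
    rw [h1]
    field_simp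
  have hsum : ((I.filter (fun n : ℕ => ∀ i, α i ≤ Int.fract (p i * z n i) ∧ Int.fract (p i * z n i) < γ i)).card : ℝ) =
      ∑ k ∈ T, ((I.filter fun n : ℕ => ∀ i, (k i + α i) / p i ≤ Int.fract (z n i) ∧ Int.fract (z n i) < (k i + γ i) / p i).card : ℝ) := by
    rw [hcard]
    push_cast
    refine Finset.sum_congr rfl fun k hk' => ?_
    rw [hfib k hk']
  have hfin : |((I.filter (fun n : ℕ => ∀ i, α i ≤ Int.fract (p i * z n i) ∧ Int.fract (p i * z n i) < γ i)).card : ℝ) -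
      V * ∏ i, (γ i - α i)| ≤ (∏ i, (p i : ℝ)) * E := by
    rw [hsum, hvol, ← Finset.sum_sub_distrib]
    calc |∑ k ∈ T, (((I.filter fun n : ℕ => ∀ i, (k i + α i) / p i ≤ Int.fract (z n i) ∧ Int.fract (z n i) < (k i + γ i) / p i).card : ℝ) -
          V * ∏ i, ((γ i - α i) / p i))| ≤ ∑ k ∈ T, E := (Finset.abs_sum_le_sum_abs _ _).trans (Finset.sum_le_sum hk)
      _ = (∏ i, (p i : ℝ)) * E := by rw [Finset.sum_const, nsmul_eq_mul, hcT]
  convert hfin

/-! ## Shifted ranges -/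

theorem ico_shift {Q : ℕ → Prop} {a a' b b' D : ℕ} {v E : ℝ} (hv0 : 0 ≤ v) (hv1 : v ≤ 1) (hab : a ≤ b) (haa : a ≤ a') (haa' : a' ≤ a + D)
    (hbb : b ≤ b') (hbb' : b' ≤ b + D) (ha'b' : a' ≤ b')
    (h : (by classical exact |(((Finset.Ico a' b').filter fun n : ℕ => Q n).card : ℝ) - ((b' : ℝ) - a') * v| ≤ E)) :
    (by classical exact |(((Finset.Ico a b).filter fun n : ℕ => Q n).card : ℝ) - ((b : ℝ) - a) * v| ≤ E + 2 * D) := by
  classical
  have hadd : ∀ u v w : ℕ, u ≤ v → v ≤ w → ((Finset.Ico u w).filter fun n : ℕ => Q n).card =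
      ((Finset.Ico u v).filter fun n : ℕ => Q n).card + ((Finset.Ico v w).filter fun n : ℕ => Q n).card := by
    intro u v w h1 h2
    rw [← Finset.Ico_union_Ico_eq_Ico h1 h2, Finset.filter_union, Finset.card_union_of_disjoint]
    exact Finset.disjoint_filter_filter (Finset.Ico_disjoint_Ico_consecutive u v w)
  have hle : ∀ u v : ℕ, ((Finset.Ico u v).filter fun n : ℕ => Q n).card ≤ v - u := by
    intro u v
    refine (Finset.card_filter_le _ _).trans_eq ?_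
    exact Nat.card_Ico u v
  have e1 := hadd a b b' hab hbb
  have e2 := hadd a a' b' haa ha'b'
  have e3 := hle a a'
  have e4 := hle b b'
  have e5 : (((Finset.Ico a b).filter fun n : ℕ => Q n).card : ℝ) + ((Finset.Ico b b').filter fun n : ℕ => Q n).card =
      ((Finset.Ico a a').filter fun n : ℕ => Q n).card + ((Finset.Ico a' b').filter fun n : ℕ => Q n).card := by
    exact_mod_cast e1.symm.trans e2
  have e6 : (((Finset.Ico a a').filter fun n : ℕ => Q n).card : ℝ) ≤ (a' : ℝ) - a := by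
    have : (((Finset.Ico a a').filter fun n : ℕ => Q n).card : ℝ) ≤ ((a' - a : ℕ) : ℝ) := by exact_mod_cast e3
    rwa [Nat.cast_sub haa] at this
  have e7 : (((Finset.Ico b b').filter fun n : ℕ => Q n).card : ℝ) ≤ (b' : ℝ) - b := by
    have : (((Finset.Ico b b').filter fun n : ℕ => Q n).card : ℝ) ≤ ((b' - b : ℕ) : ℝ) := by exact_mod_cast e4
    rwa [Nat.cast_sub hbb] at this
  have e8 : (a' : ℝ) ≤ a + D := by exact_mod_cast haa'
  have e9 : (b' : ℝ) ≤ b + D := by exact_mod_cast hbb'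
  have e10 : (a : ℝ) ≤ a' := by exact_mod_cast haa
  have e11 : (b : ℝ) ≤ b' := by exact_mod_cast hbb
  have e12 : (0 : ℝ) ≤ ((Finset.Ico a a').filter fun n : ℕ => Q n).card := Nat.cast_nonneg _
  have e13 : (0 : ℝ) ≤ ((Finset.Ico b b').filter fun n : ℕ => Q n).card := Nat.cast_nonneg _
  have e14 : 0 ≤ ((a' : ℝ) - a) * v := mul_nonneg (by linarith) hv0
  have e15 : ((a' : ℝ) - a) * v ≤ a' - a := mul_le_of_le_one_right (by linarith) hv1
  have e16 : 0 ≤ ((b' : ℝ) - b) * v := mul_nonneg (by linarith) hv0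
  have e17 : ((b' : ℝ) - b) * v ≤ b' - b := mul_le_of_le_one_right (by linarith) hv1
  have h' : |(((Finset.Ico a' b').filter fun n : ℕ => Q n).card : ℝ) - ((b' : ℝ) - a') * v| ≤ E := by convert h
  rw [abs_le] at h'
  have hfin : |(((Finset.Ico a b).filter fun n : ℕ => Q n).card : ℝ) - ((b : ℝ) - a) * v| ≤ E + 2 * D := by
    rw [abs_le]
    constructor <;> nlinarith [h'.1, h'.2]
  convert hfin

/-! ## The numbers `nuP` for a smaller amplitude -/

theorem fp_div (A₀ q : ℝ) (P n : ℕ) (x : ℝ) : fp (A₀ / q) P n x = fp A₀ P n x / q := by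
  unfold fp
  ring

theorem nuP_div {A₀ x ℓ q : ℝ} {P g D : ℕ} (hA : 0 < A₀) (hP : 1 ≤ P) (hg : 1 ≤ g) (hx : 1 < x) (hℓ : 0 < ℓ) (hq : 1 ≤ q)
    (hD : q ≤ (x ^ (1 / (P : ℝ))) ^ (g * D)) :
    nuP A₀ P g x ℓ ≤ nuP (A₀ / q) P g x ℓ ∧ nuP (A₀ / q) P g x ℓ ≤ nuP A₀ P g x ℓ + D := by
  have hq0 : 0 < q := by linarith
  have hx0 : 0 < x := by linarith
  constructor
  · refine Nat.sInf_le ?_
    have h1 := nuP_spec (A₀ := A₀ / q) (by positivity) hP hg hx hℓ
    rw [fp_div] at h1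
    refine h1.trans ?_
    have h2 : 0 ≤ fp A₀ P (g * nuP (A₀ / q) P g x ℓ) x := fp_nonneg hA hx0
    exact mul_le_mul_of_nonneg_right (div_le_self h2 hq) hℓ.le
  · refine Nat.sInf_le ?_
    show 1 ≤ fp (A₀ / q) P (g * (nuP A₀ P g x ℓ + D)) x * ℓ
    have h1 := nuP_spec hA hP hg hx hℓ
    have h2 := fp_step (A₀ := A₀) (P := P) (x := x) (n := g * nuP A₀ P g x ℓ) (n' := g * nuP A₀ P g x ℓ + g * D) hA hP hx0 (Nat.le_add_right _ _)
    rw [Nat.add_sub_cancel_left] at h2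
    rw [Nat.mul_add, fp_div]
    have h3 : 0 ≤ fp A₀ P (g * nuP A₀ P g x ℓ) x := fp_nonneg hA hx0
    have h4 : fp A₀ P (g * nuP A₀ P g x ℓ) x ≤ fp A₀ P (g * nuP A₀ P g x ℓ + g * D) x / q := by
      rw [le_div_iff₀ hq0]
      exact (mul_le_mul_of_nonneg_left hD h3).trans h2
    exact h1.trans (mul_le_mul_of_nonneg_right h4 hℓ.le)

end Pool.Agent.Helper41.LD7b
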