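import Mathlib

/-!
# Project LD7: reflections of the coordinates
-/

set_option autoImplicit false

namespace Pool.Agent.Helper41.LD7b

open Set Filter Topology

/-- the boxes of the points `z n`, `n ∈ I` -/
def Bx {m : ℕ} (z : ℕ → Fin m → ℝ) (I : Finset ℕ) (V E : ℝ) : Prop :=
  ∀ α γ : Fin m → ℝ, (∀ i, 0 ≤ α i ∧ α i ≤ γ i ∧ γ i ≤ 1) →
    |((I.filter fun n : ℕ => ∀ i, α i ≤ Int.fract (z n i) ∧ Int.fract (z n i) < γ i).card : ℝ) - V * ∏ i, (γ i - α i)| ≤ E

theorem Bx_nonneg {m : ℕ} {z : ℕ → Fin m → ℝ} {I : Finset ℕ} {V E : ℝ} (h : Bx z I V E) : 0 ≤ E :=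
  (abs_nonneg _).trans (h (fun _ => 0) (fun _ => 0) fun _ => ⟨le_rfl, le_rfl, zero_le_one⟩)

/-- a small number that separates the points of a finite set from the numbers `c` below them -/
theorem exists_eps (I : Finset ℕ) (u : ℕ → ℝ) (c : ℝ) : ∀ᶠ ε in 𝓝[>] (0 : ℝ), ∀ n ∈ I, c < u n → c + ε ≤ u n := by
  rw [Filter.eventually_all_finset]
  intro n _
  by_cases h : c < u n
  · have h1 : ∀ᶠ ε in 𝓝[>] (0 : ℝ), ε < u n - c := mem_nhdsWithin_of_mem_nhds (Iio_mem_nhds (by linarith))
    filter_upwards [h1] with ε h2 _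
    linarith
  · exact Eventually.of_forall fun ε h2 => absurd h2 h

theorem fract_neg_cases (t : ℝ) : (Int.fract t = 0 ∧ Int.fract (-t) = 0) ∨ (0 < Int.fract t ∧ Int.fract (-t) = 1 - Int.fract t) := by
  rcases (Int.fract_nonneg t).eq_or_lt with h | h
  · exact Or.inl ⟨h.symm, Int.fract_neg_eq_zero.2 h.symm⟩
  · exact Or.inr ⟨h, Int.fract_neg h.ne'⟩

theorem prod_upd {m : ℕ} (α γ : Fin m → ℝ) (j : Fin m) (a c : ℝ) :
    ∏ i, (Function.update γ j c i - Function.update α j a i) = (c - a) * ∏ i ∈ Finset.univ.erase j, (γ i - α i) := by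
  rw [← Finset.mul_prod_erase Finset.univ _ (Finset.mem_univ j)]
  congr 1
  · rw [Function.update_self, Function.update_self]
  · refine Finset.prod_congr rfl fun i hi => ?_
    have h := Finset.ne_of_mem_erase hi
    rw [Function.update_of_ne h, Function.update_of_ne h]

theorem upd_ok {m : ℕ} {α γ : Fin m → ℝ} (h : ∀ i, 0 ≤ α i ∧ α i ≤ γ i ∧ γ i ≤ 1) (j : Fin m) {a c : ℝ} (h1 : 0 ≤ a) (h2 : a ≤ c) (h3 : c ≤ 1) :
    ∀ i, 0 ≤ Function.update α j a i ∧ Function.update α j a i ≤ Function.update γ j c i ∧ Function.update γ j c i ≤ 1 := by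
  intro i
  by_cases hi : i = j
  · subst hi
    rw [Function.update_self, Function.update_self]
    exact ⟨h1, h2, h3⟩
  · rw [Function.update_of_ne hi, Function.update_of_ne hi]
    exact h i

/-- one coordinate is reflected -/
theorem refl_one {m : ℕ} {z z' : ℕ → Fin m → ℝ} {I : Finset ℕ} {V E : ℝ} (h : Bx z I V E) (j : Fin m) (hz : ∀ n i, i ≠ j → z' n i = z n i)
    (hzj : ∀ n, z' n j = -z n j) : Bx z' I V (2 * E) := by
  intro α γ hαγ
  have hE := Bx_nonneg h
  obtain ⟨hj0, hj1, hj2⟩ := hαγ j
  have hvol : ∏ i, (γ i - α i) = (γ j - α j) * ∏ i ∈ Finset.univ.erase j, (γ i - α i) := (Finset.mul_prod_erase Finset.univ _ (Finset.mem_univ j)).symm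
  -- the other coordinates
  have hoth : ∀ (n : ℕ) (a c : ℝ), (∀ i, Function.update α j a i ≤ Int.fract (z n i) ∧ Int.fract (z n i) < Function.update γ j c i) ↔
      ((a ≤ Int.fract (z n j) ∧ Int.fract (z n j) < c) ∧ ∀ i, i ≠ j → (α i ≤ Int.fract (z n i) ∧ Int.fract (z n i) < γ i)) := by
    intro n a c
    constructor
    · intro h1
      refine ⟨?_, fun i hi => ?_⟩
      · have h2 := h1 j
        rwa [Function.update_self, Function.update_self] at h2
      · have h2 := h1 i
        rwa [Function.update_of_ne hi, Function.update_of_ne hi] at h2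
    · rintro ⟨h1, h2⟩ i
      by_cases hi : i = j
      · subst hi
        rw [Function.update_self, Function.update_self]
        exact h1
      · rw [Function.update_of_ne hi, Function.update_of_ne hi]
        exact h2 i hi
  have hoth' : ∀ n : ℕ, (∀ i, α i ≤ Int.fract (z' n i) ∧ Int.fract (z' n i) < γ i) ↔
      ((α j ≤ Int.fract (-z n j) ∧ Int.fract (-z n j) < γ j) ∧ ∀ i, i ≠ j → (α i ≤ Int.fract (z n i) ∧ Int.fract (z n i) < γ i)) := by
    intro n
    constructor
    · intro h1
      refine ⟨?_, fun i hi => ?_⟩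
      · have h2 := h1 j
        rwa [hzj] at h2
      · have h2 := h1 i
        rwa [hz n i hi] at h2
    · rintro ⟨h1, h2⟩ i
      by_cases hi : i = j
      · subst hi
        rw [hzj]
        exact h1
      · rw [hz n i hi]
        exact h2 i hi
  rcases hj0.eq_or_lt with h0 | h0
  · -- the box contains `0`
    rcases hj1.eq_or_lt with h1 | h1
    · -- empty
      have h2 : (I.filter fun n : ℕ => ∀ i, α i ≤ Int.fract (z' n i) ∧ Int.fract (z' n i) < γ i) = ∅ := by
        rw [Finset.filter_eq_empty_iff]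
        intro n _ h3
        have h4 := h3 j
        linarith [h4.1, h4.2]
      rw [h2, hvol, ← h1, sub_self, zero_mul, mul_zero, Finset.card_empty, Nat.cast_zero, sub_zero, abs_zero]
      positivity
    · rw [← h0] at h1
      have hs1 : ∀ᶠ ε in 𝓝[>] (0 : ℝ), ε < γ j := mem_nhdsWithin_of_mem_nhds (Iio_mem_nhds h1)
      have hs2 : ∀ᶠ ε in 𝓝[>] (0 : ℝ), (0 : ℝ) < ε := self_mem_nhdsWithin
      obtain ⟨ε, ⟨h3, h4⟩, h5, h6⟩ := (((exists_eps I (fun n => Int.fract (z n j)) 0).and (exists_eps I (fun n => Int.fract (z n j)) (1 - γ j))).and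
        (hs1.and hs2)).exists
      have hb1 := h (Function.update α j 0) (Function.update γ j 1) (upd_ok hαγ j le_rfl zero_le_one le_rfl)
      have hb2 := h (Function.update α j ε) (Function.update γ j (1 - γ j + ε)) (upd_ok hαγ j h6.le (by linarith) (by linarith))
      have hset : (I.filter fun n : ℕ => ∀ i, α i ≤ Int.fract (z' n i) ∧ Int.fract (z' n i) < γ i) =
          (I.filter fun n : ℕ => ∀ i, Function.update α j 0 i ≤ Int.fract (z n i) ∧ Int.fract (z n i) < Function.update γ j 1 i) \
            (I.filter fun n : ℕ => ∀ i, Function.update α j ε i ≤ Int.fract (z n i) ∧ Int.fract (z n i) < Function.update γ j (1 - γ j + ε) i) := by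
        ext n
        simp only [Finset.mem_filter, Finset.mem_sdiff, hoth, hoth']
        constructor
        · rintro ⟨h7, ⟨h8, h9⟩, h10⟩
          refine ⟨⟨h7, ⟨Int.fract_nonneg _, Int.fract_lt_one _⟩, h10⟩, ?_⟩
          rintro ⟨-, ⟨h11, h12⟩, -⟩
          rcases fract_neg_cases (z n j) with ⟨h13, h14⟩ | ⟨h13, h14⟩
          · linarith
          · rw [h14] at h9
            have h15 := h4 n h7 (by linarith)
            linarith
        · rintro ⟨⟨h7, h8, h9⟩, h10⟩
          refine ⟨h7, ⟨by rw [← h0]; exact Int.fract_nonneg _, ?_⟩, h9⟩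
          rcases fract_neg_cases (z n j) with ⟨h13, h14⟩ | ⟨h13, h14⟩
          · rw [h14]
            exact h1
          · rw [h14]
            by_contra hcon
            push Not at hcon
            refine h10 ⟨h7, ⟨?_, by linarith⟩, h9⟩
            have := h3 n h7 h13
            linarith
      have hsub : (I.filter fun n : ℕ => ∀ i, Function.update α j ε i ≤ Int.fract (z n i) ∧ Int.fract (z n i) < Function.update γ j (1 - γ j + ε) i) ⊆
          (I.filter fun n : ℕ => ∀ i, Function.update α j 0 i ≤ Int.fract (z n i) ∧ Int.fract (z n i) < Function.update γ j 1 i) := by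
        intro n hn
        simp only [Finset.mem_filter, hoth] at hn ⊢
        exact ⟨hn.1, ⟨Int.fract_nonneg _, Int.fract_lt_one _⟩, hn.2.2⟩
      rw [hset, Finset.card_sdiff_of_subset hsub, Nat.cast_sub (Finset.card_le_card hsub), hvol, ← h0]
      rw [prod_upd] at hb1 hb2
      rw [abs_le] at hb1 hb2 ⊢
      constructor <;> nlinarith [hb1.1, hb1.2, hb2.1, hb2.2]
  · -- the box does not contain `0`
    have hs1 : ∀ᶠ ε in 𝓝[>] (0 : ℝ), ε < α j := mem_nhdsWithin_of_mem_nhds (Iio_mem_nhds h0)
    have hs2 : ∀ᶠ ε in 𝓝[>] (0 : ℝ), (0 : ℝ) < ε := self_mem_nhdsWithin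
    obtain ⟨ε, ⟨h3, h4⟩, h5, h6⟩ := (((exists_eps I (fun n => Int.fract (z n j)) (1 - α j)).and (exists_eps I (fun n => Int.fract (z n j)) (1 - γ j))).and
      (hs1.and hs2)).exists
    have hb2 := h (Function.update α j (1 - γ j + ε)) (Function.update γ j (1 - α j + ε)) (upd_ok hαγ j (by linarith) (by linarith) (by linarith))
    have hset : (I.filter fun n : ℕ => ∀ i, α i ≤ Int.fract (z' n i) ∧ Int.fract (z' n i) < γ i) =
        (I.filter fun n : ℕ => ∀ i, Function.update α j (1 - γ j + ε) i ≤ Int.fract (z n i) ∧ Int.fract (z n i) < Function.update γ j (1 - α j + ε) i) := by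
      refine Finset.filter_congr fun n hn => ?_
      rw [hoth, hoth']
      refine and_congr_left fun _ => ?_
      rcases fract_neg_cases (z n j) with ⟨h13, h14⟩ | ⟨h13, h14⟩
      · rw [h14, h13]
        constructor
        · rintro ⟨h7, -⟩
          exact absurd h7 (not_le.2 h0)
        · rintro ⟨h7, -⟩
          linarith
      · rw [h14]
        constructor
        · rintro ⟨h7, h8⟩
          exact ⟨h4 n hn (by linarith), by linarith⟩
        · rintro ⟨h7, h8⟩
          refine ⟨?_, by linarith⟩
          by_contra hcon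
          push Not at hcon
          have := h3 n hn (by linarith)
          linarith
    rw [hset, hvol]
    rw [prod_upd] at hb2
    have e1 : V * ((1 - α j + ε - (1 - γ j + ε)) * ∏ i ∈ Finset.univ.erase j, (γ i - α i)) = V * ((γ j - α j) * ∏ i ∈ Finset.univ.erase j, (γ i - α i)) := by
      ring
    rw [e1] at hb2
    linarith

/-- signs -/
theorem refl_all {m : ℕ} {z z' : ℕ → Fin m → ℝ} {I : Finset ℕ} {V E : ℝ} (h : Bx z I V E) (hz : ∀ i, (∀ n, z' n i = z n i) ∨ ∀ n, z' n i = -z n i) :
    Bx z' I V (2 ^ m * E) := by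
  classical
  have hE := Bx_nonneg h
  have key : ∀ S : Finset (Fin m), Bx (fun n i => if i ∈ S then z' n i else z n i) I V (2 ^ S.card * E) := by
    intro S
    induction S using Finset.induction_on with
    | empty => simpa using h
    | insert j S hj ih =>
      rw [Finset.card_insert_of_notMem hj]
      have e1 : (2 : ℝ) ^ (S.card + 1) * E = 2 * (2 ^ S.card * E) := by ring
      rw [e1]
      rcases hz j with h1 | h1
      · have h2 : (fun n i => if i ∈ insert j S then z' n i else z n i) = fun n i => if i ∈ S then z' n i else z n i := by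
          funext n i
          by_cases hi : i = j
          · subst hi
            rw [if_pos (Finset.mem_insert_self _ _), if_neg hj, h1]
          · simp only [Finset.mem_insert, hi, false_or]
        rw [h2]
        intro α γ hαγ
        have h3 : 0 ≤ 2 ^ S.card * E := by positivity
        exact (ih α γ hαγ).trans (by linarith)
      · refine refl_one ih j (fun n i hi => ?_) fun n => ?_
        · simp only [Finset.mem_insert, hi, false_or]
        · simp only [Finset.mem_insert_self, if_true, hj, if_false]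
          exact h1 n
  have h1 := key Finset.univ
  simp only [Finset.mem_univ, if_true, Finset.card_univ, Fintype.card_fin] at h1
  exact h1

end Pool.Agent.Helper41.LD7b
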