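import Pool.Agent.Helper41.LD7.Main
import Pool.Agent.Helper41.LD7.Mul
import Pool.Agent.Helper41.LD7.Refl

/-!
# Project LD7: joint distribution of all rational multiples of the powers `x ^ (r n + ρ)`
-/

set_option autoImplicit false

namespace Pool.Agent.Helper41.LD7c

open Set MeasureTheory Filter Topology
open Pool.Agent.Helper41.LD (av var haar Kk Kk_mono Kk_succ Kk_ge Kk_tendsto)
open Pool.Agent.Helper41.LD2 (dimH_le_one)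
open Pool.Agent.Helper41.LD3 (ll ll_pos ll_succ ll_anti ll_tendsto)
open Pool.Agent.Helper41.LD4 (kp kp_zero kp_strict Kk_phase exists_phase phase_len ll_phase fam fam_spec le_fam)
open Pool.Agent.Helper41.LD5 (fp pwf nuP nuR nuP_eq len5 num5 len5_succ len5_zero len5_div child_in)
open Pool.Agent.Helper44.LD5 (nuP_mono nuP_succ nuP_ge)
open Pool.Agent.Helper41.LD5 (ev_len)
open Pool.Agent.Helper89.LD5 (dim_exc)
open Pool.Agent.Helper41.LD6 (pro6)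
open Pool.Agent.Helper76.LD7 (num_K num_Z num_le num_R num_pow)
open Pool.Agent.Helper64.LD7 (T_phase)
open Pool.Agent.Helper34.LD7 (nr_cover)
open Pool.Agent.Helper46.LD7 (stage_start7 stage_sums7)
open Pool.Agent.Helper52.LD7 (stage_step7)
open Pool.Agent.Helper59.LD7 (cls7)
open Pool.Agent.Helper64.LD6 (ev_mass6)
open Pool.Agent.Helper49.LD6 (mass_bound6)
open Pool.Agent.Helper31.LD6 (asm6)
open Pool.Agent.Helper41.LD7 (Pm cF BoxLe log_phase dd Ep rad Dead num_count ll_succ1 rat_rep rat_dvd exists_rep)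
open Pool.Agent.Helper41.LD7b (box_mul ico_shift nuP_div Bx refl_all)

/-! ## The families -/

/-- the family number `i`: as `LD7.Fm` with the amplitude `A₀ / i!` and the shift `c / i!` -/
noncomputable def Fm (X : ℕ → ℕ) (A₀ x₁ x₂ : ℝ) (c : ℝ → ℝ) (i : ℕ) : Pm :=
  ⟨i * i.factorial, X i, i.factorial, i.factorial ^ 2, A₀ / i.factorial, x₁, x₂, fun t => c t / i.factorial⟩

theorem exists_X {A₀ x₁ x₂ : ℝ} (hA : 0 < A₀) (h1 : 1 < x₁) (h12 : x₁ ≤ x₂) (c : ℝ → ℝ) : ∃ X : ℕ → ℕ, ∀ i, (Fm X A₀ x₁ x₂ c i).Ok := by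
  have h : ∀ i : ℕ, ∃ X : ℕ → ℕ, (Pool.Agent.Helper41.LD7.Fm X (A₀ / i.factorial) x₁ x₂ (fun t => c t / i.factorial) i).Ok := fun i => by
    have h2 : (0 : ℝ) < i.factorial := by exact_mod_cast Nat.factorial_pos i
    obtain ⟨X, hX⟩ := Pool.Agent.Helper41.LD7.exists_X (A₀ := A₀ / i.factorial) (div_pos hA h2) h1 h12 (fun t => c t / i.factorial)
    exact ⟨X, hX i⟩
  choose X hX using h
  exact ⟨fun i => X i i, fun i => hX i⟩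

/-- the constant of the family -/
noncomputable def Gf (X : ℕ → ℕ) (A₀ x₁ x₂ : ℝ) (c : ℝ → ℝ) (i : ℕ) : ℕ := cF (Fm X A₀ x₁ x₂ c i) * (2 * dd i) ^ i + 2 * dd i

/-! ## The tree -/

section

variable {X : ℕ → ℕ} {A₀ x₁ x₂ : ℝ} {c : ℝ → ℝ} {fm : ℕ → ℕ} {E : ℕ → Finset ℝ} {K₀ : ℕ} {ℓ₀ : ℝ}

/-- a good window of level `k` -/
def GoodM (X : ℕ → ℕ) (A₀ x₁ x₂ : ℝ) (c : ℝ → ℝ) (fm : ℕ → ℕ) (K₀ : ℕ) (ℓ₀ : ℝ) (k : ℕ) (a : ℝ) : Prop :=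
  ∀ σ, kp σ < k → k ≤ kp (σ + 1) → ∃ a₀, (Fm X A₀ x₁ x₂ c (fm σ)).St (K₀ + σ) a₀ (ll 1 K₀ ℓ₀ (kp σ)) ∧ a₀ ≤ a ∧
    a + ll 1 K₀ ℓ₀ k ≤ a₀ + ll 1 K₀ ℓ₀ (kp σ) ∧ (Fm X A₀ x₁ x₂ c (fm σ)).Good (K₀ + σ) a₀ (ll 1 K₀ ℓ₀ (kp σ)) a (ll 1 K₀ ℓ₀ k)

/-- the nodes of the tree -/
def Nd (X : ℕ → ℕ) (A₀ x₁ x₂ : ℝ) (c : ℝ → ℝ) (fm : ℕ → ℕ) (E : ℕ → Finset ℝ) (K₀ : ℕ) (ℓ₀ : ℝ) (k : ℕ) (a : ℝ) : Prop :=
  (k = 0 ∧ a = x₁) ∨ (1 ≤ k ∧ x₁ ≤ a ∧ a + ll 1 K₀ ℓ₀ (k - 1) ≤ x₂ ∧ (Dead fm E K₀ ℓ₀ (k - 1) a ∨ GoodM X A₀ x₁ x₂ c fm K₀ ℓ₀ (k - 1) a))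

/-- the requirements -/
structure Rq (X : ℕ → ℕ) (A₀ x₁ x₂ : ℝ) (c : ℝ → ℝ) (fm : ℕ → ℕ) (E : ℕ → Finset ℝ) (K₀ : ℕ) (ℓ₀ : ℝ) : Prop where
  ok : ∀ d, (Fm X A₀ x₁ x₂ c d).Ok
  pos : 0 < ℓ₀
  big : ∀ σ, (Fm X A₀ x₁ x₂ c (fm σ)).Big (K₀ + σ)
  len : ∀ σ, ll 1 K₀ ℓ₀ (kp σ) * 2 ^ ((K₀ + σ) ^ 4) ≤ 1 ∧ 1 ≤ ll 1 K₀ ℓ₀ (kp σ) * 2 ^ (2 ^ (2 * (K₀ + σ)))
  cov : ∀ σ, ∀ x ∈ Icc x₁ x₂, (∀ y ∈ E σ, x ∉ Icc (y - rad fm K₀ σ) (y + rad fm K₀ σ)) →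
    (Fm X A₀ x₁ x₂ c (fm σ)).NR (K₀ + σ) x

/-- a good window that is not dead has a start window -/
theorem good_at (R : Rq X A₀ x₁ x₂ c fm E K₀ ℓ₀) {k : ℕ} {a : ℝ} (ha1 : x₁ ≤ a) (ha2 : a + ll 1 K₀ ℓ₀ k ≤ x₂) (hd : ¬ Dead fm E K₀ ℓ₀ k a)
    (hg : GoodM X A₀ x₁ x₂ c fm K₀ ℓ₀ k a) {σ : ℕ} (h1 : kp σ ≤ k) (h2 : k ≤ kp (σ + 1)) :
    ∃ a₀, (Fm X A₀ x₁ x₂ c (fm σ)).St (K₀ + σ) a₀ (ll 1 K₀ ℓ₀ (kp σ)) ∧ a₀ ≤ a ∧
      a + ll 1 K₀ ℓ₀ k ≤ a₀ + ll 1 K₀ ℓ₀ (kp σ) ∧ (Fm X A₀ x₁ x₂ c (fm σ)).Good (K₀ + σ) a₀ (ll 1 K₀ ℓ₀ (kp σ)) a (ll 1 K₀ ℓ₀ k) := by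
  rcases eq_or_lt_of_le h1 with h3 | h3
  · subst h3
    have hp := ll_pos (κ := 1) R.pos K₀ (kp σ)
    have hS : (Fm X A₀ x₁ x₂ c (fm σ)).St (K₀ + σ) a (ll 1 K₀ ℓ₀ (kp σ)) := by
      refine ⟨ha1, ha2, hp, (R.len σ).1, (R.len σ).2, fun x hx => ?_⟩
      refine R.cov σ x ⟨ha1.trans hx.1, hx.2.trans ha2⟩ fun y hy hxy => hd ?_
      exact ⟨σ, a, le_rfl, le_rfl, le_rfl, y, hy, x, hx, hxy⟩
    exact ⟨a, hS, le_rfl, le_rfl, stage_start7 (R.ok _) (R.big σ) hS⟩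
  · exact hg σ h3 h2

/-- the number of the steps in a phase -/
theorem T_le (R : Rq X A₀ x₁ x₂ c fm E K₀ ℓ₀) {σ k : ℕ} (h1 : kp σ ≤ k) (h2 : k ≤ kp (σ + 1)) {a₀ : ℝ}
    (hS : (Fm X A₀ x₁ x₂ c (fm σ)).St (K₀ + σ) a₀ (ll 1 K₀ ℓ₀ (kp σ))) :
    (Fm X A₀ x₁ x₂ c (fm σ)).T (K₀ + σ) a₀ (ll 1 K₀ ℓ₀ (kp σ)) (ll 1 K₀ ℓ₀ k) ≤ 2 ^ (K₀ + σ) * (X (fm σ) * (K₀ + σ) ^ 3) :=
  T_phase (R.ok _) hS R.pos K₀ rfl rfl h1 h2

/-- one step of the tree -/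
theorem nd_step (R : Rq X A₀ x₁ x₂ c fm E K₀ ℓ₀) (k : ℕ) (a : ℝ) (ha1 : x₁ ≤ a) (ha2 : a + ll 1 K₀ ℓ₀ k ≤ x₂)
    (h : Dead fm E K₀ ℓ₀ k a ∨ GoodM X A₀ x₁ x₂ c fm K₀ ℓ₀ k a) :
    pro6 (fun σ => dd (fm σ) + 4) K₀ (k + 1) * ((2 ^ (Kk K₀ k ^ 3) : ℕ) : ℝ) ≤
      (by classical exact (((Finset.range (2 ^ (Kk K₀ k ^ 3))).filter fun b : ℕ =>
        x₁ ≤ a + b * ll 1 K₀ ℓ₀ (k + 1) ∧ a + b * ll 1 K₀ ℓ₀ (k + 1) + ll 1 K₀ ℓ₀ (k + 1) ≤ x₂ ∧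
        (Dead fm E K₀ ℓ₀ (k + 1) (a + b * ll 1 K₀ ℓ₀ (k + 1)) ∨ GoodM X A₀ x₁ x₂ c fm K₀ ℓ₀ (k + 1) (a + b * ll 1 K₀ ℓ₀ (k + 1)))).card : ℝ)) := by
  classical
  have hp := ll_pos (κ := 1) R.pos K₀ k
  have hsucc := ll_succ1 K₀ ℓ₀ k
  have hin : ∀ b : ℕ, b < 2 ^ (Kk K₀ k ^ 3) → a ≤ a + b * ll 1 K₀ ℓ₀ (k + 1) ∧
      a + b * ll 1 K₀ ℓ₀ (k + 1) + ll 1 K₀ ℓ₀ (k + 1) ≤ a + ll 1 K₀ ℓ₀ k := by
    intro b hb
    rw [hsucc]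
    exact child_in hp hb
  have hpro : pro6 (fun σ => dd (fm σ) + 4) K₀ (k + 1) ≤ 1 := by
    unfold pro6
    rw [if_neg (Nat.succ_ne_zero k)]
    exact pow_le_one₀ (by norm_num) (by norm_num)
  by_cases hd : Dead fm E K₀ ℓ₀ k a
  · -- all children are dead
    have h1 : ((Finset.range (2 ^ (Kk K₀ k ^ 3))).filter fun b : ℕ =>
        x₁ ≤ a + b * ll 1 K₀ ℓ₀ (k + 1) ∧ a + b * ll 1 K₀ ℓ₀ (k + 1) + ll 1 K₀ ℓ₀ (k + 1) ≤ x₂ ∧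
        (Dead fm E K₀ ℓ₀ (k + 1) (a + b * ll 1 K₀ ℓ₀ (k + 1)) ∨ GoodM X A₀ x₁ x₂ c fm K₀ ℓ₀ (k + 1) (a + b * ll 1 K₀ ℓ₀ (k + 1)))) =
        Finset.range (2 ^ (Kk K₀ k ^ 3)) := by
      rw [Finset.filter_eq_self]
      intro b hb
      obtain ⟨h2, h3⟩ := hin b (Finset.mem_range.1 hb)
      refine ⟨ha1.trans h2, h3.trans ha2, Or.inl ?_⟩
      obtain ⟨σ, a', e1, e2, e3, e4⟩ := hd
      exact ⟨σ, a', by omega, e2.trans h2, h3.trans e3, e4⟩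
    have h2 : pro6 (fun σ => dd (fm σ) + 4) K₀ (k + 1) * ((2 ^ (Kk K₀ k ^ 3) : ℕ) : ℝ) ≤ ((2 ^ (Kk K₀ k ^ 3) : ℕ) : ℝ) :=
      mul_le_of_le_one_left (Nat.cast_nonneg _) hpro
    refine h2.trans (le_of_eq ?_)
    have h3 := congrArg Finset.card h1
    rw [Finset.card_range] at h3
    exact_mod_cast h3.symm
  · have hg : GoodM X A₀ x₁ x₂ c fm K₀ ℓ₀ k a := h.resolve_left hd
    obtain ⟨σ, hσ1, hσ2⟩ := exists_phase k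
    obtain ⟨a₀, hS, h3, h4, h5⟩ := good_at R ha1 ha2 hd hg hσ1 hσ2.le
    have hKk := Kk_phase K₀ hσ1 hσ2
    have hT := T_le R (hσ1.trans (Nat.le_succ k)) (Nat.succ_le_of_lt hσ2) hS
    have hdiv : ll 1 K₀ ℓ₀ (k + 1) = ll 1 K₀ ℓ₀ k / 2 ^ ((K₀ + σ) ^ 3) := by
      rw [hsucc, hKk]
      push_cast
      rfl
    rw [hdiv] at hT
    have h6 := stage_step7 (R.ok (fm σ)) (R.big σ) hS hp h3 h4 (num_count (R.ok (fm σ)) (R.big σ) hT) h5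
    have hpe : pro6 (fun σ => dd (fm σ) + 4) K₀ (k + 1) = (1 / 2) ^ (3 * (Fm X A₀ x₁ x₂ c (fm σ)).E (K₀ + σ)) := by
      unfold pro6
      rw [if_neg (Nat.succ_ne_zero k), Nat.add_sub_cancel, hKk, log_phase hσ1 hσ2]
      rfl
    rw [hpe]
    rw [hKk] at hin hsucc ⊢
    refine h6.trans ?_
    have h7 : ((Finset.range (2 ^ ((K₀ + σ) ^ 3))).filter fun b : ℕ =>
        (Fm X A₀ x₁ x₂ c (fm σ)).Good (K₀ + σ) a₀ (ll 1 K₀ ℓ₀ (kp σ)) (a + b * (ll 1 K₀ ℓ₀ k / (2 ^ ((K₀ + σ) ^ 3) : ℕ)))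
          (ll 1 K₀ ℓ₀ k / (2 ^ ((K₀ + σ) ^ 3) : ℕ))) ⊆
        ((Finset.range (2 ^ ((K₀ + σ) ^ 3))).filter fun b : ℕ =>
          x₁ ≤ a + b * ll 1 K₀ ℓ₀ (k + 1) ∧ a + b * ll 1 K₀ ℓ₀ (k + 1) + ll 1 K₀ ℓ₀ (k + 1) ≤ x₂ ∧
          (Dead fm E K₀ ℓ₀ (k + 1) (a + b * ll 1 K₀ ℓ₀ (k + 1)) ∨ GoodM X A₀ x₁ x₂ c fm K₀ ℓ₀ (k + 1) (a + b * ll 1 K₀ ℓ₀ (k + 1)))) := by
      intro b hb
      rw [Finset.mem_filter] at hb ⊢
      obtain ⟨h8, h9⟩ := hin b (Finset.mem_range.1 hb.1)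
      refine ⟨hb.1, ha1.trans h8, h9.trans ha2, Or.inr fun σ' e1 e2 => ?_⟩
      have e3 : σ' = σ := by
        rcases lt_trichotomy σ' σ with e | e | e
        · have := kp_strict.monotone (show σ' + 1 ≤ σ by omega)
          omega
        · exact e
        · have := kp_strict.monotone (show σ + 1 ≤ σ' by omega)
          omega
      subst e3
      refine ⟨a₀, hS, h3.trans h8, h9.trans h4, ?_⟩
      rw [hsucc]
      exact hb.2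
    have h8 := Finset.card_le_card h7
    convert (Nat.cast_le (α := ℝ)).2 h8 using 2

/-! ## The sums over the phases -/

/-- `x` is in good windows of all levels that are not dead -/
def Pt (X : ℕ → ℕ) (A₀ x₁ x₂ : ℝ) (c : ℝ → ℝ) (fm : ℕ → ℕ) (E : ℕ → Finset ℝ) (K₀ : ℕ) (ℓ₀ x : ℝ) : Prop :=
  ∀ k, ∃ a, x₁ ≤ a ∧ a + ll 1 K₀ ℓ₀ k ≤ x₂ ∧ ¬ Dead fm E K₀ ℓ₀ k a ∧ GoodM X A₀ x₁ x₂ c fm K₀ ℓ₀ k a ∧ x ∈ Icc a (a + ll 1 K₀ ℓ₀ k)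

/-- the discrepancy over one phase -/
theorem sum_box (R : Rq X A₀ x₁ x₂ c fm E K₀ ℓ₀) {x : ℝ} (hx : Pt X A₀ x₁ x₂ c fm E K₀ ℓ₀ x)
    {s σ g : ℕ} (hg : 1 ≤ g) (hgQ : g ∣ (fm σ).factorial ^ 2) {κ : Fin s → ℕ} (hκ : Function.Injective κ) (hκd : ∀ i, κ i ≤ dd (fm σ))
    {k : ℕ} (h1 : kp σ ≤ k) (h2 : k ≤ kp (σ + 1)) (α γ : Fin s → ℝ) (hαγ : ∀ i, 0 ≤ α i ∧ α i ≤ γ i ∧ γ i ≤ 1) :
    |(((Finset.Ico (nuP (A₀ / (fm σ).factorial) (fm σ).factorial g x (ll 1 K₀ ℓ₀ (kp σ))) (nuP (A₀ / (fm σ).factorial) (fm σ).factorial g x (ll 1 K₀ ℓ₀ k))).filter fun n : ℕ =>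
        ∀ i : Fin s, α i ≤ Int.fract (pwf (A₀ / (fm σ).factorial) (fun t => c t / (fm σ).factorial) (fm σ).factorial (g * n + κ i) x) ∧ Int.fract (pwf (A₀ / (fm σ).factorial) (fun t => c t / (fm σ).factorial) (fm σ).factorial (g * n + κ i) x) < γ i).card : ℝ) -
      ((nuP (A₀ / (fm σ).factorial) (fm σ).factorial g x (ll 1 K₀ ℓ₀ k) : ℝ) - nuP (A₀ / (fm σ).factorial) (fm σ).factorial g x (ll 1 K₀ ℓ₀ (kp σ))) * ∏ i, (γ i - α i)| ≤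
      (cF (Fm X A₀ x₁ x₂ c (fm σ)) : ℕ) * ((K₀ + σ : ℕ) : ℝ) ^ (2 * s + 4) := by
  obtain ⟨a, ha1, ha2, hd, hg', hxa⟩ := hx k
  obtain ⟨a₀, hS, h3, h4, h5⟩ := good_at R ha1 ha2 hd hg' h1 h2
  have hT := T_le R h1 h2 hS
  have hc := num_count (R.ok (fm σ)) (R.big σ) hT
  exact cls7 (R.ok (fm σ)) (R.big σ) hS (ll_pos (κ := 1) R.pos K₀ k) (ll_anti (κ := 1) R.pos K₀ h1) ⟨h3.trans hxa.1, hxa.2.trans h4⟩ hg hgQ hκ hκd hT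
    (fun u hu => stage_sums7 (R.ok (fm σ)) (R.big σ) hS (ll_pos (κ := 1) R.pos K₀ k) h3 h4 ((Nat.le_add_right _ _).trans hc) h5 hxa hu) α γ hαγ

end

/-! ## Rational multiples in the families -/

/-- the positive multiples `q` are `p / i!` -/
theorem exists_mul' {m : ℕ} {q : Fin m → ℚ} (hq : ∀ j, 0 < q j) : ∃ i₁ : ℕ, ∀ i ≥ i₁, ∃ p : Fin m → ℕ, (∀ j, 1 ≤ p j) ∧ (∀ j, p j ≤ dd i) ∧
    ∀ j, (p j : ℝ) / (i.factorial : ℕ) = q j := by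
  refine ⟨∑ j, ((q j).den + (q j).num.natAbs), fun i hi => ?_⟩
  have h1 : ∀ j, (q j).den + (q j).num.natAbs ≤ i := fun j => by
    have := Finset.single_le_sum (f := fun j => (q j).den + (q j).num.natAbs) (fun _ _ => Nat.zero_le _) (Finset.mem_univ j)
    have h2 : (q j).den + (q j).num.natAbs ≤ ∑ j, ((q j).den + (q j).num.natAbs) := this
    omega
  have hfac := Nat.factorial_pos i
  refine ⟨fun j => (q j).num.natAbs * (i.factorial / (q j).den), fun j => ?_, fun j => ?_, fun j => rat_rep (hq j).le (by have := h1 j; omega)⟩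
  · have h3 : 0 < (q j).num.natAbs := Int.natAbs_pos.2 (Rat.num_pos.2 (hq j)).ne'
    have h4 : 0 < i.factorial / (q j).den :=
      Nat.div_pos (Nat.le_of_dvd hfac (Nat.dvd_factorial (q j).den_pos (by have := h1 j; omega))) (q j).den_pos
    exact Nat.mul_pos h3 h4
  · unfold dd
    have h7 := h1 j
    exact Nat.mul_le_mul (by omega) (Nat.div_le_self _ _)

/-- the multiples `|q|` are `p / i!` -/
theorem exists_mul {m : ℕ} {q : Fin m → ℚ} (hq : ∀ j, q j ≠ 0) : ∃ i₁ : ℕ, ∀ i ≥ i₁, ∃ p : Fin m → ℕ, (∀ j, 1 ≤ p j) ∧ (∀ j, p j ≤ dd i) ∧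
    ∀ j, (p j : ℝ) / (i.factorial : ℕ) = |(q j : ℝ)| := by
  obtain ⟨i₁, h⟩ := exists_mul' (q := fun j => |q j|) fun j => abs_pos.2 (hq j)
  refine ⟨i₁, fun i hi => ?_⟩
  obtain ⟨p, h1, h2, h3⟩ := h i hi
  exact ⟨p, h1, h2, fun j => by rw [h3 j]; push_cast; rfl⟩

/-- the shift of the times -/
theorem exists_D {x r : ℝ} (hx : 1 < x) (hr : 0 < r) : ∃ C : ℕ, ∀ (i g : ℕ), r = g / (i.factorial : ℕ) →
    ((i.factorial : ℕ) : ℝ) ≤ (x ^ (1 / ((i.factorial : ℕ) : ℝ))) ^ (g * (C * i.factorial)) := by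
  have h1 : 1 < x ^ r := Real.one_lt_rpow hx hr
  obtain ⟨C, hC⟩ := pow_unbounded_of_one_lt 2 h1
  refine ⟨C, fun i g hg => ?_⟩
  have hx0 : 0 < x := by linarith
  have h2 : (x ^ (1 / ((i.factorial : ℕ) : ℝ))) ^ g = x ^ r := by
    rw [← Real.rpow_natCast, ← Real.rpow_mul hx0.le, hg]
    congr 1
    ring
  rw [pow_mul, h2, pow_mul]
  have h3 : (i.factorial : ℝ) ≤ 2 ^ i.factorial := by exact_mod_cast Nat.lt_two_pow_self.le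
  exact h3.trans (pow_le_pow_left₀ (by norm_num) hC.le _)

/-! ## The main theorem -/

theorem main7m_ge {A₀ : ℝ} (hA : 0 < A₀) (c : ℝ → ℝ) {O : Set ℝ} (hO : IsOpen O) (hne : (O ∩ Ioi 1).Nonempty) {s : ℝ} (hs : 0 < s) (hs1 : s < 1) :
    ENNReal.ofReal s ≤ dimH {x | x ∈ O ∧ ∀ (r : ℚ) (m : ℕ) (ρ q : Fin m → ℚ), 0 < r → 1 ≤ m → (∀ i, 0 ≤ ρ i) → Function.Injective ρ → (∀ i, q i ≠ 0) →
      ∃ N₀ : ℕ, ∀ N ≥ N₀, BoxLe m (fun n i => q i * (A₀ * x ^ ((r : ℝ) * n + ρ i) + c (r * n + ρ i))) N (Real.log N ^ (2 * m + 6))} := by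
  classical
  obtain ⟨x₁, hx₁O, hx₁⟩ := hne
  have hx₁ : 1 < x₁ := hx₁
  obtain ⟨ρ, hρ, hball⟩ := Metric.isOpen_iff.1 hO x₁ hx₁O
  obtain ⟨L₀, hL₀⟩ : ∃ L₀ : ℝ, L₀ = min 1 (ρ / 2) := ⟨_, rfl⟩
  have hL₀pos : 0 < L₀ := by rw [hL₀]; positivity
  have hL₀1 : L₀ ≤ 1 := by rw [hL₀]; exact min_le_left _ _
  have hL₀ρ : L₀ ≤ ρ / 2 := by rw [hL₀]; exact min_le_right _ _
  have hsub : Icc x₁ (x₁ + L₀) ⊆ O := by
    intro x hx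
    refine hball ?_
    rw [Metric.mem_ball, Real.dist_eq, abs_of_nonneg (by linarith [hx.1])]
    linarith [hx.2]
  -- the phases
  obtain ⟨X, hok⟩ := exists_X hA hx₁ (x₂ := x₁ + L₀) (by linarith) c
  obtain ⟨thr, hthr⟩ : ∃ thr : ℕ → ℕ, ∀ d, ∀ K ≥ thr d, (Fm X A₀ x₁ (x₁ + L₀) c d).Big K ∧ Gf X A₀ x₁ (x₁ + L₀) c d ^ 2 ≤ K ∧ dd d + 4 ≤ K := by
    refine ⟨fun d => (Fm X A₀ x₁ (x₁ + L₀) c d).Z ^ 4 + Gf X A₀ x₁ (x₁ + L₀) c d ^ 2 + (dd d + 4), fun d K hK => ⟨?_, ?_, ?_⟩⟩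
    · show _ ^ 4 ≤ K
      have : _ + _ + _ ≤ K := hK
      omega
    · have : _ + _ + _ ≤ K := hK
      omega
    · have : _ + _ + _ ≤ K := hK
      omega
  obtain ⟨K₁, hK₁⟩ := eventually_atTop.1 ((ev_len (κ := 1) le_rfl hL₀pos hL₀1).and (ev_mass6 hL₀pos hL₀1))
  obtain ⟨K₀, hK₀⟩ : ∃ K₀, K₀ = max (max (thr 0) K₁) 1 := ⟨_, rfl⟩
  have hK₀1 : 1 ≤ K₀ := by rw [hK₀]; exact le_max_right _ _
  have hK₀0 : thr 0 ≤ K₀ := by rw [hK₀]; exact (le_max_left _ _).trans (le_max_left _ _)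
  have hK₀2 : K₁ ≤ K₀ := by rw [hK₀]; exact (le_max_right _ _).trans (le_max_left _ _)
  obtain ⟨fm, hfm⟩ : ∃ fm, fm = fam thr K₀ := ⟨_, rfl⟩
  have hspec : ∀ σ, (Fm X A₀ x₁ (x₁ + L₀) c (fm σ)).Big (K₀ + σ) ∧ Gf X A₀ x₁ (x₁ + L₀) c (fm σ) ^ 2 ≤ K₀ + σ ∧ dd (fm σ) + 4 ≤ K₀ + σ := fun σ => by
    rw [hfm]
    exact hthr _ _ (fam_spec hK₀0 σ)
  obtain ⟨hlen, hmass⟩ := hK₁ K₀ hK₀2
  obtain ⟨kk, hkk⟩ := hmass (fun σ => dd (fm σ) + 4) (fun σ => 75 * (dd (fm σ) + 1)) (fun σ => 200 * (dd (fm σ) + 2))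
    (fun σ => ⟨by omega, (hspec σ).2.2⟩) (fun σ => by omega)
  obtain ⟨ℓ₀, hℓ₀⟩ : ∃ ℓ₀ : ℝ, ℓ₀ = L₀ / 2 ^ ((4 * K₀) ^ (2 * 1 + 2)) := ⟨_, rfl⟩
  have hℓ₀pos : 0 < ℓ₀ := by rw [hℓ₀]; positivity
  have hℓ₀1 : ℓ₀ ≤ 1 := by
    rw [hℓ₀]
    exact (div_le_self hL₀pos.le (one_le_pow₀ (by norm_num))).trans hL₀1
  rw [← hℓ₀] at hlen
  have hbig : ∀ σ, (Fm X A₀ x₁ (x₁ + L₀) c (fm σ)).Big (K₀ + σ) := fun σ => (hspec σ).1
  have hcov := fun σ => nr_cover (hok (fm σ)) (hbig σ)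
  choose E hEc hE using hcov
  have R : Rq X A₀ x₁ (x₁ + L₀) c fm E K₀ ℓ₀ :=
    ⟨hok, hℓ₀pos, hbig, fun σ => hlen σ, fun σ x hx h => hE σ x hx h⟩
  have hKb : ∀ σ, 1000000000000 ≤ K₀ + σ := fun σ => num_K (hbig σ)
  have hrad : ∀ σ, ll 1 K₀ ℓ₀ (kp σ) ≤ rad fm K₀ σ := by
    intro σ
    have h1 := (R.len σ).1
    have h2 : 200 * (dd (fm σ) + 2) * Ep fm K₀ σ ≤ (K₀ + σ) ^ 4 := by
      unfold Ep
      have h3 := (hspec σ).2.2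
      have h4 := hKb σ
      calc 200 * (dd (fm σ) + 2) * ((dd (fm σ) + 4) * (K₀ + σ)) ≤ (K₀ + σ) * (K₀ + σ) * ((K₀ + σ) * (K₀ + σ)) := by
            refine Nat.mul_le_mul (Nat.mul_le_mul (by omega) (by omega)) (Nat.mul_le_mul_right _ h3)
        _ = (K₀ + σ) ^ 4 := by ring
    have h3 : (2 : ℝ) ^ (200 * (dd (fm σ) + 2) * Ep fm K₀ σ) ≤ 2 ^ ((K₀ + σ) ^ 4) := pow_le_pow_right₀ (by norm_num) h2
    have h4 : ll 1 K₀ ℓ₀ (kp σ) * 2 ^ (200 * (dd (fm σ) + 2) * Ep fm K₀ σ) ≤ 1 :=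
      (mul_le_mul_of_nonneg_left h3 (ll_pos hℓ₀pos K₀ _).le).trans h1
    unfold rad
    rw [one_div_pow, le_div_iff₀ (by positivity)]
    exact h4
  have hdim := dim_exc (num5 1 K₀) (len5 1 K₀ L₀) (pro6 (fun σ => dd (fm σ) + 4) K₀) (Nd X A₀ x₁ (x₁ + L₀) c fm E K₀ ℓ₀) x₁
    (fun k => by unfold num5; split_ifs <;> exact Nat.one_le_two_pow) (by rw [len5_zero]; exact hL₀pos) (fun k => len5_div k)
    ((tendsto_add_atTop_iff_nat 1).1 (by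
      have h1 : (fun k => len5 1 K₀ L₀ (k + 1)) = ll 1 K₀ ℓ₀ := by
        funext k
        rw [len5_succ, hℓ₀]
      rw [h1]
      exact ll_tendsto hℓ₀pos hK₀1))
    (fun k => by unfold pro6; split_ifs <;> positivity)
    (fun k => by
      unfold pro6
      split_ifs
      · exact le_rfl
      · exact pow_le_one₀ (by norm_num) (by norm_num)) (Or.inl ⟨rfl, rfl⟩) (fun k a hg => ?_) hs hs1
    (mass_bound6 hL₀pos hK₀1 (fun σ => ⟨by omega, (hspec σ).2.2⟩) hs hs1)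
    E (fun σ => 2 * rad fm K₀ σ) kk (fun σ => by unfold rad; positivity) (fun n => ?_)
  rotate_left
  · -- the steps
    rcases hg with ⟨hk, ha⟩ | ⟨hk, ha1, ha2, hg⟩
    · subst hk
      subst ha
      have h1 : ((Finset.range (num5 1 K₀ 0)).filter fun b : ℕ => Nd X A₀ a (a + L₀) c fm E K₀ ℓ₀ (0 + 1) (a + b * len5 1 K₀ L₀ (0 + 1))) =
          Finset.range (num5 1 K₀ 0) := by
        rw [Finset.filter_eq_self]
        intro b hb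
        have h2 : len5 1 K₀ L₀ (0 + 1) = L₀ / (num5 1 K₀ 0 : ℕ) := by rw [len5_div, len5_zero]
        have h3 : ll 1 K₀ ℓ₀ 0 = L₀ / (num5 1 K₀ 0 : ℕ) := by rw [← h2, len5_succ, hℓ₀]
        obtain ⟨h4, h5⟩ := child_in (a := a) hL₀pos (Finset.mem_range.1 hb)
        rw [h2]
        refine Or.inr ⟨le_rfl, h4, ?_, Or.inr fun σ h6 _ => absurd h6 (Nat.not_lt_zero _)⟩
        show _ + ll 1 K₀ ℓ₀ (0 + 1 - 1) ≤ _
        rw [Nat.add_sub_cancel, h3]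
        exact h5
      have h2 : pro6 (fun σ => dd (fm σ) + 4) K₀ 0 = 1 := by unfold pro6; rw [if_pos rfl]
      rw [h2, one_mul]
      have h3 := congrArg Finset.card h1
      rw [Finset.card_range] at h3
      refine le_of_eq ?_
      exact_mod_cast h3.symm
    · obtain ⟨j, rfl⟩ := Nat.exists_eq_succ_of_ne_zero (by omega : k ≠ 0)
      have e1 : j.succ - 1 = j := rfl
      rw [e1] at ha2 hg
      have h1 := nd_step R j a ha1 ha2 hg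
      have h3 : num5 1 K₀ j.succ = 2 ^ (Kk K₀ j ^ 3) := by
        unfold num5
        rw [if_neg (Nat.succ_ne_zero j), e1]
      have h4 : len5 1 K₀ L₀ (j.succ + 1) = ll 1 K₀ ℓ₀ (j + 1) := by rw [len5_succ, hℓ₀]
      rw [h3, h4]
      refine h1.trans ?_
      refine (Nat.cast_le (α := ℝ)).2 (Finset.card_le_card fun b hb => ?_)
      rw [Finset.mem_filter] at hb ⊢
      exact ⟨hb.1, Or.inr ⟨Nat.succ_le_succ (Nat.zero_le _), hb.2.1, hb.2.2.1, hb.2.2.2⟩⟩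
  · -- the mass of the resonances
    refine le_trans (Finset.sum_le_sum fun σ _ => ?_) (hkk n)
    have h1 : ((E σ).card : ℝ) ≤ ((2 ^ (75 * (dd (fm σ) + 1) * ((dd (fm σ) + 4) * (K₀ + σ))) : ℕ) : ℝ) := by exact_mod_cast hEc σ
    refine mul_le_mul_of_nonneg_right h1 ?_
    have h2 : 0 < len5 1 K₀ L₀ 0 := by rw [len5_zero]; exact hL₀pos
    have h3 : 0 ≤ len5 1 K₀ L₀ (kk σ) := by
      unfold len5
      split_ifs
      · exact hL₀pos.le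
      · exact (ll_pos (by rw [← hℓ₀]; exact hℓ₀pos) _ _).le
    have h4 : 0 ≤ ∏ j ∈ Finset.range (kk σ), (pro6 (fun σ => dd (fm σ) + 4) K₀ j)⁻¹ := Finset.prod_nonneg fun j _ => by
      unfold pro6
      split_ifs <;> positivity
    refine mul_nonneg (div_nonneg (add_nonneg ?_ (mul_nonneg two_pos.le h3)) h2.le) h4
    show 0 ≤ 2 * (2 * rad fm K₀ σ)
    unfold rad
    positivity
  refine hdim.trans (dimH_mono ?_)
  rintro x ⟨hx0, hx, hxE⟩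
  rw [len5_zero] at hx0
  have hxP : Pt X A₀ x₁ (x₁ + L₀) c fm E K₀ ℓ₀ x := by
    intro k
    obtain ⟨a, hg, hxa⟩ := hx (k + 1)
    have h1 : len5 1 K₀ L₀ (k + 1) = ll 1 K₀ ℓ₀ k := by rw [len5_succ, hℓ₀]
    rw [h1] at hxa
    rcases hg with ⟨h2, -⟩ | ⟨-, ha1, ha2, hg⟩
    · exact absurd h2 (Nat.succ_ne_zero k)
    · rw [Nat.add_sub_cancel] at ha2 hg
      have hd : ¬ Dead fm E K₀ ℓ₀ k a := by
        rintro ⟨σ, a', e1, e2, e3, y, hy, z, hz, hzy⟩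
        refine hxE σ y hy ?_
        have h3 := hrad σ
        constructor
        · linarith [hxa.1, hxa.2, hz.1, hz.2, hzy.1, hzy.2]
        · linarith [hxa.1, hxa.2, hz.1, hz.2, hzy.1, hzy.2]
      exact ⟨a, ha1, ha2, hd, hg.resolve_left hd, hxa⟩
  have hKp : ∀ σ, Kk K₀ (kp σ) = K₀ + σ := fun σ => Kk_phase K₀ le_rfl (kp_strict (Nat.lt_succ_self σ))
  have hx1 : 1 < x := hx₁.trans_le hx0.1
  refine ⟨hsub hx0, fun r m ρ q hr hm hρ hρi hq => ?_⟩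
  obtain ⟨i₀, hi₀⟩ := exists_rep hr hρ hρi
  obtain ⟨i₁, hi₁⟩ := exists_mul hq
  obtain ⟨C, hC⟩ := exists_D hx1 (show (0 : ℝ) < (r : ℝ) by exact_mod_cast hr)
  obtain ⟨g₀, κ₀, hg₀, -, -, -, hrg₀, -⟩ := hi₀ i₀ le_rfl
  have hfac := Nat.factorial_pos i₀
  have hmono := nuP_mono (κ := 1) (e := g₀) hA hfac hg₀ hx1 hℓ₀pos K₀
  obtain ⟨C₁, hC₁⟩ := nuP_succ (κ := 1) (e := g₀) hA hfac hg₀ hx1 hℓ₀pos K₀
  obtain ⟨C₂, hC₂⟩ := nuP_ge (κ := 1) (e := g₀) hA hfac hg₀ hx1 hℓ₀pos hℓ₀1 hK₀1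
  simp only [nuP_eq A₀ x _ hrg₀] at hmono hC₁ hC₂
  obtain ⟨j₀, hj₀⟩ : ∃ j₀, j₀ = max (max i₀ i₁) (max (max m C) 1) := ⟨_, rfl⟩
  obtain ⟨N₀, hN₀⟩ := asm6 (β := {p : (Fin m → ℝ) × (Fin m → ℝ) // ∀ i, 0 ≤ p.1 i ∧ p.1 i ≤ p.2 i ∧ p.2 i ≤ 1})
    (fun b n => ∀ i : Fin m, b.1.1 i ≤ Int.fract ((q i : ℝ) * (A₀ * x ^ ((r : ℝ) * n + ρ i) + c (r * n + ρ i))) ∧
      Int.fract ((q i : ℝ) * (A₀ * x ^ ((r : ℝ) * n + ρ i) + c (r * n + ρ i))) < b.1.2 i)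
    (fun b => ∏ i, (b.1.2 i - b.1.1 i))
    (fun b => ⟨Finset.prod_nonneg fun i _ => by linarith [(b.2 i).2.1],
      Finset.prod_le_one (fun i _ => by linarith [(b.2 i).2.1]) fun i _ => by linarith [(b.2 i).1, (b.2 i).2.2]⟩)
    (κ := 1) (e := 2 * m + 4) hK₀1 hmono hC₁ hC₂ kp_strict (by omega)
    (fun σ => by rw [hKp]; exact Nat.le_add_left _ _)
    (G := fun σ => Gf X A₀ x₁ (x₁ + L₀) c (fm σ)) (i := max j₀ (thr j₀)) (fun σ _ => by rw [hKp]; exact (hspec σ).2.1) (by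
      intro σ hσ k h1 h2 b
      rw [hKp]
      have h3 : j₀ ≤ fm σ := by
        rw [hfm]
        exact le_fam ((le_max_left _ _).trans hσ) ((le_max_right _ _).trans hσ)
      have h3a : i₀ ≤ fm σ := by omega
      have h3b : i₁ ≤ fm σ := by omega
      have h3c : m ≤ fm σ := by omega
      have h3d : C ≤ fm σ := by omega
      have h3e : 1 ≤ fm σ := by omega
      obtain ⟨g, κ, hg, hgQ, hκ, hκd, hrg, hρκ⟩ := hi₀ (fm σ) h3a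
      obtain ⟨p, hp1, hpd, hpq⟩ := hi₁ (fm σ) h3b
      have hfac2 := Nat.factorial_pos (fm σ)
      have hfac3 : (0 : ℝ) < ((fm σ).factorial : ℕ) := by exact_mod_cast hfac2
      have hfac4 : (1 : ℝ) ≤ ((fm σ).factorial : ℕ) := by exact_mod_cast hfac2
      have h4 : Bx (fun n i => (p i : ℝ) * pwf (A₀ / (fm σ).factorial) (fun t => c t / (fm σ).factorial) (fm σ).factorial (g * n + κ i) x)
          (Finset.Ico (nuP (A₀ / (fm σ).factorial) (fm σ).factorial g x (ll 1 K₀ ℓ₀ (kp σ)))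
            (nuP (A₀ / (fm σ).factorial) (fm σ).factorial g x (ll 1 K₀ ℓ₀ k)))
          ((nuP (A₀ / (fm σ).factorial) (fm σ).factorial g x (ll 1 K₀ ℓ₀ k) : ℝ) -
            nuP (A₀ / (fm σ).factorial) (fm σ).factorial g x (ll 1 K₀ ℓ₀ (kp σ)))
          ((∏ i, (p i : ℝ)) * ((cF (Fm X A₀ x₁ (x₁ + L₀) c (fm σ)) : ℕ) * ((K₀ + σ : ℕ) : ℝ) ^ (2 * m + 4))) := by
        intro α γ hαγ
        have h := box_mul (V := (nuP (A₀ / (fm σ).factorial) (fm σ).factorial g x (ll 1 K₀ ℓ₀ k) : ℝ) -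
            nuP (A₀ / (fm σ).factorial) (fm σ).factorial g x (ll 1 K₀ ℓ₀ (kp σ)))
          (I := Finset.Ico (nuP (A₀ / (fm σ).factorial) (fm σ).factorial g x (ll 1 K₀ ℓ₀ (kp σ)))
            (nuP (A₀ / (fm σ).factorial) (fm σ).factorial g x (ll 1 K₀ ℓ₀ k)))
          (z := fun n i => pwf (A₀ / (fm σ).factorial) (fun t => c t / (fm σ).factorial) (fm σ).factorial (g * n + κ i) x)
          (fun α γ hαγ => by
            have h := sum_box R hxP (s := m) hg hgQ hκ hκd h1 h2 α γ hαγ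
            convert h) hp1 hαγ
        convert h
      have h5 : ∀ (n : ℕ) (i : Fin m), (p i : ℝ) * pwf (A₀ / (fm σ).factorial) (fun t => c t / (fm σ).factorial) (fm σ).factorial (g * n + κ i) x =
          |(q i : ℝ)| * (A₀ * x ^ ((r : ℝ) * n + ρ i) + c (r * n + ρ i)) := by
        intro n i
        unfold pwf
        have h6 : ((g * n + κ i : ℕ) : ℝ) / ((fm σ).factorial : ℕ) = r * n + ρ i := by
          rw [hrg, hρκ i]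
          push_cast
          ring
        rw [h6, ← hpq i]
        ring
      have h4' := refl_all h4 (z' := fun n i => (q i : ℝ) * (A₀ * x ^ ((r : ℝ) * n + ρ i) + c (r * n + ρ i))) fun i => by
        rcases abs_choice (q i : ℝ) with h6 | h6
        · left
          intro n
          show _ = (p i : ℝ) * _
          rw [h5, h6]
        · right
          intro n
          show _ = -((p i : ℝ) * _)
          rw [h5, h6]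
          ring
      have h4'' := h4' b.1.1 b.1.2 b.2
      have hD := hC (fm σ) g hrg
      have hs1 := nuP_div (D := C * (fm σ).factorial) hA hfac2 hg hx1 (ll_pos (κ := 1) hℓ₀pos K₀ (kp σ)) hfac4 hD
      have hs2 := nuP_div (D := C * (fm σ).factorial) hA hfac2 hg hx1 (ll_pos (κ := 1) hℓ₀pos K₀ k) hfac4 hD
      simp only [nuP_eq A₀ x _ hrg] at hs1 hs2
      have hmono' := nuP_mono (κ := 1) (e := g) (div_pos hA hfac3) hfac2 hg hx1 hℓ₀pos K₀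
      have hv0 : 0 ≤ ∏ i, (b.1.2 i - b.1.1 i) := Finset.prod_nonneg fun i _ => by linarith [(b.2 i).2.1]
      have hv1 : ∏ i, (b.1.2 i - b.1.1 i) ≤ 1 :=
        Finset.prod_le_one (fun i _ => by linarith [(b.2 i).2.1]) fun i _ => by linarith [(b.2 i).1, (b.2 i).2.2]
      have h6 := ico_shift (Q := fun n : ℕ => ∀ i : Fin m, b.1.1 i ≤ Int.fract ((q i : ℝ) * (A₀ * x ^ ((r : ℝ) * n + ρ i) + c (r * n + ρ i))) ∧
          Int.fract ((q i : ℝ) * (A₀ * x ^ ((r : ℝ) * n + ρ i) + c (r * n + ρ i))) < b.1.2 i) (D := C * (fm σ).factorial) hv0 hv1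
        (hmono h1) hs1.1 hs1.2 hs2.1 hs2.2 (hmono' h1) (by convert h4'')
      have hKK : (1 : ℝ) ≤ ((K₀ + σ : ℕ) : ℝ) ^ (2 * m + 4) := one_le_pow₀ (by exact_mod_cast (show 1 ≤ K₀ + σ by omega))
      have hprod : (2 : ℝ) ^ m * ∏ i, (p i : ℝ) ≤ (((2 * dd (fm σ)) ^ (fm σ) : ℕ) : ℝ) := by
        have h7 : ∏ i, (p i : ℝ) ≤ ∏ _i : Fin m, ((dd (fm σ) : ℕ) : ℝ) :=
          Finset.prod_le_prod (fun i _ => Nat.cast_nonneg _) fun i _ => by exact_mod_cast hpd i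
        rw [Finset.prod_const, Finset.card_univ, Fintype.card_fin] at h7
        have h8 : 1 ≤ dd (fm σ) := by
          unfold dd
          exact Nat.mul_pos h3e hfac2
        calc (2 : ℝ) ^ m * ∏ i, (p i : ℝ) ≤ 2 ^ m * ((dd (fm σ) : ℕ) : ℝ) ^ m := mul_le_mul_of_nonneg_left h7 (by positivity)
          _ = (((2 * dd (fm σ)) ^ m : ℕ) : ℝ) := by push_cast; rw [mul_pow]
          _ ≤ _ := by exact_mod_cast Nat.pow_le_pow_right (by omega) h3c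
      have hDd : ((C * (fm σ).factorial : ℕ) : ℝ) ≤ ((dd (fm σ) : ℕ) : ℝ) := by
        unfold dd
        exact_mod_cast Nat.mul_le_mul_right _ h3d
      have hcf : (0 : ℝ) ≤ (cF (Fm X A₀ x₁ (x₁ + L₀) c (fm σ)) : ℕ) := Nat.cast_nonneg _
      have hfin : (2 : ℝ) ^ m * ((∏ i, (p i : ℝ)) * ((cF (Fm X A₀ x₁ (x₁ + L₀) c (fm σ)) : ℕ) * ((K₀ + σ : ℕ) : ℝ) ^ (2 * m + 4))) +
          2 * ((C * (fm σ).factorial : ℕ) : ℝ) ≤ (Gf X A₀ x₁ (x₁ + L₀) c (fm σ) : ℕ) * ((K₀ + σ : ℕ) : ℝ) ^ (2 * m + 4) := by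
        have e1 : (Gf X A₀ x₁ (x₁ + L₀) c (fm σ) : ℝ) =
            (cF (Fm X A₀ x₁ (x₁ + L₀) c (fm σ)) : ℕ) * (((2 * dd (fm σ)) ^ (fm σ) : ℕ) : ℝ) + 2 * ((dd (fm σ) : ℕ) : ℝ) := by
          unfold Gf
          push_cast
          ring
        rw [e1]
        have e2 : (2 : ℝ) ^ m * ((∏ i, (p i : ℝ)) * ((cF (Fm X A₀ x₁ (x₁ + L₀) c (fm σ)) : ℕ) * ((K₀ + σ : ℕ) : ℝ) ^ (2 * m + 4))) ≤
            (((2 * dd (fm σ)) ^ (fm σ) : ℕ) : ℝ) * ((cF (Fm X A₀ x₁ (x₁ + L₀) c (fm σ)) : ℕ) * ((K₀ + σ : ℕ) : ℝ) ^ (2 * m + 4)) := by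
          rw [← mul_assoc]
          exact mul_le_mul_of_nonneg_right hprod (by positivity)
        have e3 : 2 * ((C * (fm σ).factorial : ℕ) : ℝ) ≤ 2 * ((dd (fm σ) : ℕ) : ℝ) * ((K₀ + σ : ℕ) : ℝ) ^ (2 * m + 4) := by
          have e4 : (0 : ℝ) ≤ 2 * ((dd (fm σ) : ℕ) : ℝ) := by positivity
          calc 2 * ((C * (fm σ).factorial : ℕ) : ℝ) ≤ 2 * ((dd (fm σ) : ℕ) : ℝ) := by linarith
            _ ≤ _ := le_mul_of_one_le_right e4 hKK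
        calc _ ≤ (((2 * dd (fm σ)) ^ (fm σ) : ℕ) : ℝ) * ((cF (Fm X A₀ x₁ (x₁ + L₀) c (fm σ)) : ℕ) * ((K₀ + σ : ℕ) : ℝ) ^ (2 * m + 4)) +
              2 * ((dd (fm σ) : ℕ) : ℝ) * ((K₀ + σ : ℕ) : ℝ) ^ (2 * m + 4) := add_le_add e2 e3
          _ = _ := by ring
      have h7 := h6.trans hfin
      convert h7)
  refine ⟨N₀, fun N hN α γ hαγ => ?_⟩
  have h5 := hN₀ N hN ⟨(α, γ), hαγ⟩
  convert h5

/-- **nearly optimal joint discrepancy of the rational multiples of the powers** -/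
theorem main7m {A₀ : ℝ} (hA : 0 < A₀) (c : ℝ → ℝ) {O : Set ℝ} (hO : IsOpen O) (hne : (O ∩ Ioi 1).Nonempty) :
    dimH {x | x ∈ O ∧ ∀ (r : ℚ) (m : ℕ) (ρ q : Fin m → ℚ), 0 < r → 1 ≤ m → (∀ i, 0 ≤ ρ i) → Function.Injective ρ → (∀ i, q i ≠ 0) →
      ∃ N₀ : ℕ, ∀ N ≥ N₀, BoxLe m (fun n i => q i * (A₀ * x ^ ((r : ℝ) * n + ρ i) + c (r * n + ρ i))) N (Real.log N ^ (2 * m + 6))} = 1 := by
  refine le_antisymm (dimH_le_one _) ?_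
  have h1 : Tendsto (fun m : ℕ => ENNReal.ofReal (1 - 1 / ((m : ℝ) + 2))) atTop (𝓝 1) := by
    have h2 : Tendsto (fun m : ℕ => 1 - 1 / ((m : ℝ) + 2)) atTop (𝓝 (1 - 0)) := by
      refine Tendsto.sub tendsto_const_nhds ?_
      have h3 : Tendsto (fun m : ℕ => (m : ℝ) + 2) atTop atTop :=
        tendsto_natCast_atTop_atTop.atTop_add tendsto_const_nhds
      have h5 := tendsto_inv_atTop_zero.comp h3
      refine h5.congr fun m => ?_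
      rw [Function.comp_apply, one_div]
    rw [sub_zero] at h2
    have h4 := (ENNReal.continuous_ofReal.tendsto 1).comp h2
    rwa [ENNReal.ofReal_one] at h4
  refine le_of_tendsto h1 (Eventually.of_forall fun m => ?_)
  refine main7m_ge hA c hO hne ?_ ?_
  · have : (1 : ℝ) / ((m : ℝ) + 2) < 1 := by
      rw [div_lt_one (by positivity)]
      have : (0 : ℝ) ≤ m := Nat.cast_nonneg m
      linarith
    linarith
  · have : (0 : ℝ) < 1 / ((m : ℝ) + 2) := by positivity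
    linarith

/-- all amplitudes `A₀ ≠ 0` -/
theorem main7s {A₀ : ℝ} (hA : A₀ ≠ 0) (c : ℝ → ℝ) {O : Set ℝ} (hO : IsOpen O) (hne : (O ∩ Ioi 1).Nonempty) :
    dimH {x | x ∈ O ∧ ∀ (r : ℚ) (m : ℕ) (ρ q : Fin m → ℚ), 0 < r → 1 ≤ m → (∀ i, 0 ≤ ρ i) → Function.Injective ρ → (∀ i, q i ≠ 0) →
      ∃ N₀ : ℕ, ∀ N ≥ N₀, BoxLe m (fun n i => q i * (A₀ * x ^ ((r : ℝ) * n + ρ i) + c (r * n + ρ i))) N (Real.log N ^ (2 * m + 6))} = 1 := by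
  rcases lt_or_gt_of_ne hA with h | h
  · rw [← main7m (neg_pos.2 h) (fun t => -c t) hO hne]
    congr 1
    ext x
    refine and_congr_right fun _ => ⟨fun h1 r m ρ q hr hm hρ hρi hq => ?_, fun h1 r m ρ q hr hm hρ hρi hq => ?_⟩
    · obtain ⟨N₀, h2⟩ := h1 r m ρ (fun i => -q i) hr hm hρ hρi fun i => neg_ne_zero.2 (hq i)
      refine ⟨N₀, fun N hN => ?_⟩
      have h3 := h2 N hN
      have e : (fun (n : ℕ) (i : Fin m) => ((-q i : ℚ) : ℝ) * (A₀ * x ^ ((r : ℝ) * n + ρ i) + c (r * n + ρ i))) =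
          fun (n : ℕ) (i : Fin m) => (q i : ℝ) * (-A₀ * x ^ ((r : ℝ) * n + ρ i) + -c (r * n + ρ i)) := by
        funext n i
        push_cast
        ring
      rwa [e] at h3
    · obtain ⟨N₀, h2⟩ := h1 r m ρ (fun i => -q i) hr hm hρ hρi fun i => neg_ne_zero.2 (hq i)
      refine ⟨N₀, fun N hN => ?_⟩
      have h3 := h2 N hN
      have e : (fun (n : ℕ) (i : Fin m) => ((-q i : ℚ) : ℝ) * (-A₀ * x ^ ((r : ℝ) * n + ρ i) + -c (r * n + ρ i))) =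
          fun (n : ℕ) (i : Fin m) => (q i : ℝ) * (A₀ * x ^ ((r : ℝ) * n + ρ i) + c (r * n + ρ i)) := by
        funext n i
        push_cast
        ring
      rwa [e] at h3
  · exact main7m h c hO hne

end Pool.Agent.Helper41.LD7c
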