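import Pool.Agent.Helper47.LD7.TTB2

/-!
# Project LD7, block TTC7: the numbers `nuP A₀ P g x ℓ` and the times of the stage
-/

set_option autoImplicit false

namespace Pool.Agent.Helper41.LD7n

open Set Pool.Agent.Helper41.LD7
open Pool.Agent.Helper41.LD5 (nuP fp)
open Pool.Agent.Helper94.LD7 (fp_mono fp_le fp_near fp_step fp_nonneg)
open Pool.Agent.Helper47.LD7 (a_one st_le_one Tt_bound)
open Pool.Agent.Helper68.LD7 (Tt_spec Tt_le Tt_big Th_ge)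
open Pool.Agent.Helper76.LD7 (num_K num_Z num_le)

variable {F : Pm} {K : ℕ} {a₀ ℓst ℓ x : ℝ}

theorem nu_T (hF : F.Ok) (hK : F.Big K) (S : F.St K a₀ ℓst) (hℓ : 0 < ℓ) (hℓst : ℓ ≤ ℓst) (hT : F.T K a₀ ℓst ℓ ≤ 2 ^ (2 * K))
    (hx : x ∈ Icc a₀ (a₀ + ℓst)) {g : ℕ} (hg : 1 ≤ g) (hgX : g ≤ F.X) :
    g * nuP F.A₀ F.P g x ℓ ≤ Tt F.A₀ F.P (F.Th K) a₀ ℓ + g ∧ Tt F.A₀ F.P (F.Th K) a₀ ℓ ≤ g * nuP F.A₀ F.P g x ℓ + F.X * (F.C₁ * F.E K + 1) := by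
  have ha1 : 1 ≤ a₀ := a_one hF S le_rfl
  have ha0 : 0 < a₀ := by linarith
  have hx1 : 1 ≤ x := ha1.trans hx.1
  have hx0 : 0 < x := by linarith
  have hA := hF.hA
  have hP := hF.hP
  have hΘ := Th_ge hF hK
  have hTh : 1 ≤ F.Th K := (one_le_pow₀ (by norm_num)).trans hΘ
  have hst1 := st_le_one S
  have hN := Tt_spec hF S.lo hℓ (F.Th K)
  have hbig := Tt_big hF hℓ (hℓst.trans hst1) hΘ S.lo
  set N := Tt F.A₀ F.P (F.Th K) a₀ ℓ with hNdef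
  have key : ∀ n, N ≤ g * n → 1 ≤ fp F.A₀ F.P (g * n) x * ℓ := by
    intro n hn
    have e1 : fp F.A₀ F.P N a₀ ≤ fp F.A₀ F.P (g * n) x := (fp_mono hA hP (by omega) ha0 hx.1).trans (fp_le hA hP hx1 hn)
    calc (1 : ℝ) ≤ F.Th K := hTh
      _ ≤ _ := hN
      _ ≤ _ := mul_le_mul_of_nonneg_right e1 hℓ.le
  have hne : nuP F.A₀ F.P g x ℓ ∈ {n : ℕ | 1 ≤ fp F.A₀ F.P (g * n) x * ℓ} := Nat.sInf_mem ⟨N, key N (by nlinarith)⟩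
  have hle : nuP F.A₀ F.P g x ℓ ≤ N / g + 1 := by
    refine Nat.sInf_le (key _ ?_)
    have e1 := Nat.div_add_mod N g
    have e2 := Nat.mod_lt N hg
    rw [Nat.mul_add]
    omega
  set ν := nuP F.A₀ F.P g x ℓ with hν
  have hne' : 1 ≤ fp F.A₀ F.P (g * ν) x * ℓ := hne
  have h1 : g * ν ≤ N + g := by
    have h2 : g * ν ≤ g * (N / g + 1) := Nat.mul_le_mul_left _ hle
    have h3 := Nat.div_mul_le_self N g
    nlinarith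
  refine ⟨h1, ?_⟩
  have hTb := Tt_bound hF hK S
  have hNb : N ≤ F.n₀ K a₀ ℓst + 2 ^ (2 * K) := by
    have : F.T K a₀ ℓst ℓ = N - F.n₀ K a₀ ℓst := rfl
    omega
  obtain ⟨k1, k2, k3⟩ := num_Z hK
  have hXZ := (num_le hF).1
  have hKK := num_K hK
  have hgν : g * ν ≤ 2 ^ (3 * K + 1) := by
    have hp : K < 2 ^ K := Nat.lt_two_pow_self
    have h3K : (2 : ℕ) ^ K ≤ 2 ^ (3 * K) := Nat.pow_le_pow_right (by norm_num) (by omega)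
    rw [pow_succ]
    omega
  have hnear : ((g * ν : ℕ) : ℝ) * ℓst ≤ 1 / 2 := by
    have e1 : ((g * ν : ℕ) : ℝ) ≤ 2 ^ (3 * K + 1) := by exact_mod_cast hgν
    have e2 : (2 : ℝ) ^ (3 * K + 2) ≤ 2 ^ (K ^ 4) := by
      refine pow_le_pow_right₀ (by norm_num) ?_
      have h5 : 5 ≤ K := by omega
      calc 3 * K + 2 ≤ 5 * K := by omega
        _ ≤ K * K := Nat.mul_le_mul_right _ h5
        _ = K ^ 2 := (pow_two K).symm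
        _ ≤ K ^ 4 := Nat.pow_le_pow_right (by omega) (by omega)
    have e3 := S.sm
    have e4 := S.pos
    have e5 : (2 : ℝ) ^ (3 * K + 2) * ℓst ≤ 1 := by
      calc (2 : ℝ) ^ (3 * K + 2) * ℓst ≤ 2 ^ (K ^ 4) * ℓst := by gcongr
        _ = ℓst * 2 ^ (K ^ 4) := mul_comm _ _
        _ ≤ 1 := e3
    have e6 : (2 : ℝ) ^ (3 * K + 2) = 2 * 2 ^ (3 * K + 1) := by ring
    rw [e6] at e5
    have e7 : ((g * ν : ℕ) : ℝ) * ℓst ≤ 2 ^ (3 * K + 1) * ℓst := by gcongr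
    linarith
  have h2 : fp F.A₀ F.P (g * ν) x ≤ 2 * fp F.A₀ F.P (g * ν) a₀ := fp_near hA hP ha1 hx.1 hx.2 le_rfl hnear
  have hst := fp_step (A₀ := F.A₀) (P := F.P) (x := a₀) (n := g * ν) (n' := g * ν + F.X * (F.C₁ * F.E K + 1)) hA hP ha0 (Nat.le_add_right _ _)
  rw [Nat.add_sub_cancel_left] at hst
  have hpow : 2 * F.Th K ≤ (a₀ ^ (1 / (F.P : ℝ))) ^ (F.X * (F.C₁ * F.E K + 1)) := by
    have e0 : (0 : ℝ) ≤ F.x₁ ^ (1 / (F.P : ℝ)) := Real.rpow_nonneg (by linarith [hF.h1]) _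
    have e1 : F.x₁ ^ (1 / (F.P : ℝ)) ≤ a₀ ^ (1 / (F.P : ℝ)) := Real.rpow_le_rpow (by linarith [hF.h1]) S.lo (by positivity)
    have e2 : (2 : ℝ) ^ (F.C₁ * F.E K + 1) ≤ (a₀ ^ (1 / (F.P : ℝ))) ^ (F.X * (F.C₁ * F.E K + 1)) := by
      rw [pow_mul (a₀ ^ (1 / (F.P : ℝ)))]
      exact pow_le_pow_left₀ (by norm_num) (hF.hx1.trans (pow_le_pow_left₀ e0 e1 _)) _
    calc 2 * F.Th K = 2 ^ (F.C₁ * F.E K + 1) := by
          unfold Pm.Th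
          rw [pow_succ]
          ring
      _ ≤ _ := e2
  refine Tt_le ?_
  have hvn : 0 ≤ fp F.A₀ F.P (g * ν) a₀ := fp_nonneg hA ha0
  have hhalf : 1 ≤ 2 * (fp F.A₀ F.P (g * ν) a₀ * ℓ) := by
    calc (1 : ℝ) ≤ fp F.A₀ F.P (g * ν) x * ℓ := hne'
      _ ≤ 2 * fp F.A₀ F.P (g * ν) a₀ * ℓ := by gcongr
      _ = _ := by ring
  calc F.Th K = F.Th K * 1 := (mul_one _).symm
    _ ≤ F.Th K * (2 * (fp F.A₀ F.P (g * ν) a₀ * ℓ)) := mul_le_mul_of_nonneg_left hhalf (by linarith)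
    _ = fp F.A₀ F.P (g * ν) a₀ * (2 * F.Th K) * ℓ := by ring
    _ ≤ fp F.A₀ F.P (g * ν) a₀ * (a₀ ^ (1 / (F.P : ℝ))) ^ (F.X * (F.C₁ * F.E K + 1)) * ℓ := by gcongr
    _ ≤ fp F.A₀ F.P (g * ν + F.X * (F.C₁ * F.E K + 1)) a₀ * ℓ := by gcongr

end Pool.Agent.Helper41.LD7n
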